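import Pool.Agent.Helper853.Fb.Touch

open scoped Topology ENNReal ComplexConjugate ContDiff
open MeasureTheory Filter Metric InnerProductSpace

namespace Pool.Agent.Helper853.Fb

variable {n : ℕ}

/-- local cube root -/
lemma exists_cbrt {T : ℂ → ℂ} (hT : Differentiable ℂ T) {ζ w : ℂ} (hw : w ^ 3 = T ζ)
    (h0 : T ζ ≠ 0) : ∃ rt : ℂ → ℂ, rt ζ = w ∧ (∀ᶠ z in 𝓝 ζ, DifferentiableAt ℂ rt z) ∧
      ∀ᶠ z in 𝓝 ζ, (rt z) ^ 3 = T z := by
  set g : ℂ → ℂ := fun z => T z / T ζ with hg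
  have hgd : Differentiable ℂ g := hT.div_const _
  have hg1 : g ζ = 1 := div_self h0
  have hev : ∀ᶠ z in 𝓝 ζ, g z ∈ Complex.slitPlane := by
    apply hgd.continuous.continuousAt.eventually_mem
    rw [hg1]
    exact Complex.isOpen_slitPlane.mem_nhds Complex.one_mem_slitPlane
  refine ⟨fun z => w * Complex.exp (Complex.log (g z) / 3), ?_, ?_, ?_⟩
  · simp [hg1]
  · filter_upwards [hev] with z hz
    have h1 : DifferentiableAt ℂ (fun z => Complex.log (g z)) z :=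
      (hgd.differentiableAt).clog hz
    exact ((h1.div_const 3).cexp).const_mul w
  · filter_upwards [hev] with z hz
    have hz0 : g z ≠ 0 := Complex.slitPlane_ne_zero hz
    rw [mul_pow, ← Complex.exp_nat_mul, hw]
    have e : ((3 : ℕ) : ℂ) * (Complex.log (g z) / 3) = Complex.log (g z) := by
      push_cast
      ring
    rw [e, Complex.exp_log hz0]
    simp only [hg]
    field_simp

/-- comparison on cube root covers of annuli -/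
theorem cover_compare {Ω : Set (Fin n → ℂ)} (hΩ : IsOpen Ω) {u : (Fin n → ℂ) → ℝ} {M : ℝ}
    (hu : BPsh Ω u M) {T : ℂ → ℂ} (hT : Differentiable ℂ T) {F : ℂ × ℂ → Fin n → ℂ}
    (hF : Differentiable ℂ F) {c : ℂ} {ρ R : ℝ} (hρ : 0 < ρ) (hρR : ρ < R)
    (hmem : ∀ ζ w : ℂ, ρ ≤ ‖ζ - c‖ → ‖ζ - c‖ ≤ R → w ^ 3 = T ζ → F (w, ζ) ∈ Ω) {A₁ A₂ : ℝ}
    (hA₁ : ∀ ζ w : ℂ, ‖ζ - c‖ = ρ → w ^ 3 = T ζ → u (F (w, ζ)) ≤ A₁)
    (hA₂ : ∀ ζ w : ℂ, ‖ζ - c‖ = R → w ^ 3 = T ζ → u (F (w, ζ)) ≤ A₂) (h12 : A₁ ≤ A₂)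
    {ζ₀ w₀ : ℂ} (hζ₀ : ρ < ‖ζ₀ - c‖) (hζ₀' : ‖ζ₀ - c‖ < R) (hw₀ : w₀ ^ 3 = T ζ₀)
    (hT₀ : T ζ₀ ≠ 0) :
    u (F (w₀, ζ₀)) ≤ A₁ + (A₂ - A₁) * (Real.log (‖ζ₀ - c‖ / ρ) / Real.log (R / ρ)) := by
  by_contra hcon
  push Not at hcon
  have hlogR : 0 < Real.log (R / ρ) := Real.log_pos (by rwa [one_lt_div hρ])
  set B : ℝ := (A₂ - A₁) / Real.log (R / ρ) with hB
  have hBnn : 0 ≤ B := div_nonneg (by linarith) hlogR.le
  have hBR : B * Real.log (R / ρ) = A₂ - A₁ := by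
    rw [hB]
    field_simp
  set g : ℝ := u (F (w₀, ζ₀)) - (A₁ + B * Real.log (‖ζ₀ - c‖ / ρ)) with hg
  have hgpos : 0 < g := by
    rw [hg, hB]
    have : (A₂ - A₁) * (Real.log (‖ζ₀ - c‖ / ρ) / Real.log (R / ρ)) =
      (A₂ - A₁) / Real.log (R / ρ) * Real.log (‖ζ₀ - c‖ / ρ) := by ring
    rw [this] at hcon
    linarith
  set R' : ℝ := ‖c‖ + R with hR'
  have hRpos : 0 < R := hρ.trans hρR
  have hR'pos : 0 < R' := by positivity
  have hζR' : ∀ ζ : ℂ, ‖ζ - c‖ ≤ R → ‖ζ‖ ≤ R' := by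
    intro ζ hζ
    have : ζ = c + (ζ - c) := by ring
    rw [this]
    exact (norm_add_le _ _).trans (by linarith)
  set δ : ℝ := g / (4 * (R' ^ 2 + 1)) with hδ
  have hδpos : 0 < δ := by positivity
  have hδR : ∀ ζ : ℂ, ‖ζ - c‖ ≤ R → δ * ‖ζ‖ ^ 2 ≤ g / 4 := by
    intro ζ hζ
    have h1 := hζR' ζ hζ
    have h2 : ‖ζ‖ ^ 2 ≤ R' ^ 2 := by gcongr
    calc δ * ‖ζ‖ ^ 2 ≤ δ * (R' ^ 2 + 1) := by
          gcongr
          linarith
      _ = g / 4 := by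
        rw [hδ]
        field_simp
  obtain ⟨CT, hCT⟩ := (isCompact_closedBall (0 : ℂ) R').exists_bound_of_continuousOn
    hT.continuous.continuousOn
  set LT : ℝ := Real.log (max CT 1) with hLT
  have hLTnn : 0 ≤ LT := Real.log_nonneg (le_max_right _ _)
  have hLTb : ∀ ζ : ℂ, ‖ζ - c‖ ≤ R → T ζ ≠ 0 → Real.log ‖T ζ‖ ≤ LT := by
    intro ζ hζ hT0
    apply Real.log_le_log (norm_pos_iff.mpr hT0)
    exact (hCT ζ (mem_closedBall_zero_iff.mpr (hζR' ζ hζ))).trans (le_max_left _ _)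
  set ε : ℝ := g / (4 * (LT + |Real.log ‖T ζ₀‖| + 1)) with hε
  have hden : 0 < LT + |Real.log ‖T ζ₀‖| + 1 := by positivity
  have hεpos : 0 < ε := by positivity
  have hεL : ε * LT ≤ g / 4 := by
    have h1 : ε * LT ≤ ε * (LT + |Real.log ‖T ζ₀‖| + 1) := by
      gcongr
      have := abs_nonneg (Real.log ‖T ζ₀‖)
      linarith
    have h2 : ε * (LT + |Real.log ‖T ζ₀‖| + 1) = g / 4 := by
      rw [hε]
      field_simp
    linarith
  have hεζ : -(g / 4) ≤ ε * Real.log ‖T ζ₀‖ := by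
    have h1 : ε * |Real.log ‖T ζ₀‖| ≤ ε * (LT + |Real.log ‖T ζ₀‖| + 1) := by
      gcongr
      linarith
    have h2 : ε * (LT + |Real.log ‖T ζ₀‖| + 1) = g / 4 := by
      rw [hε]
      field_simp
    have h3 : ε * (-|Real.log ‖T ζ₀‖|) ≤ ε * Real.log ‖T ζ₀‖ := by
      gcongr
      exact neg_abs_le _
    linarith
  set τ : ℝ := Real.exp (-(|M - A₁| + g) / ε) with hτ
  have hτpos : 0 < τ := Real.exp_pos _
  set W : ℂ × ℂ → ℝ := fun q => u (F q) + (-(A₁ + B * Real.log (‖q.2 - c‖ / ρ)) +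
    δ * ‖q.2‖ ^ 2 + ε * Real.log ‖T q.2‖) with hW
  have hW₀ : 3 * g / 4 ≤ W (w₀, ζ₀) := by
    simp only [hW]
    have : 0 ≤ δ * ‖ζ₀‖ ^ 2 := by positivity
    linarith
  have hWsmall : ∀ q : ℂ × ℂ, q.1 ^ 3 = T q.2 → ρ ≤ ‖q.2 - c‖ → ‖q.2 - c‖ ≤ R → T q.2 ≠ 0 →
      ‖T q.2‖ ≤ τ → W q < 0 := by
    intro q h1 h2 h3 h4 h5
    have h6 : Real.log ‖T q.2‖ ≤ -(|M - A₁| + g) / ε := by
      rw [← Real.log_exp (-(|M - A₁| + g) / ε)]
      exact Real.log_le_log (norm_pos_iff.mpr h4) h5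
    have h7 : ε * Real.log ‖T q.2‖ ≤ -(|M - A₁| + g) := by
      calc ε * Real.log ‖T q.2‖ ≤ ε * (-(|M - A₁| + g) / ε) := by gcongr
        _ = -(|M - A₁| + g) := by field_simp
    have h8 : u (F q) ≤ M := (abs_le.mp (hu.bd _ (hmem q.2 q.1 h2 h3 h1))).2
    have h9 : 0 ≤ B * Real.log (‖q.2 - c‖ / ρ) := by
      apply mul_nonneg hBnn
      apply Real.log_nonneg
      rwa [one_le_div hρ]
    have h10 := hδR q.2 h3
    have h11 := le_abs_self (M - A₁)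
    simp only [hW]
    linarith
  set K : Set (ℂ × ℂ) := {q | q.1 ^ 3 = T q.2 ∧ (ρ ≤ ‖q.2 - c‖ ∧ ‖q.2 - c‖ ≤ R) ∧ τ ≤ ‖T q.2‖}
    with hK
  have hKclosed : IsClosed K := by
    apply IsClosed.inter
    · exact isClosed_eq (f := fun q : ℂ × ℂ => q.1 ^ 3) (g := fun q : ℂ × ℂ => T q.2)
        (by fun_prop) (hT.continuous.comp continuous_snd)
    · apply IsClosed.inter
      · apply IsClosed.inter
        · exact isClosed_le (f := fun _ : ℂ × ℂ => ρ) (g := fun q : ℂ × ℂ => ‖q.2 - c‖)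
            (by fun_prop) (by fun_prop)
        · exact isClosed_le (f := fun q : ℂ × ℂ => ‖q.2 - c‖) (g := fun _ : ℂ × ℂ => R)
            (by fun_prop) (by fun_prop)
      · exact isClosed_le (f := fun _ : ℂ × ℂ => τ) (g := fun q : ℂ × ℂ => ‖T q.2‖)
          (by fun_prop) ((hT.continuous.comp continuous_snd).norm)
  have hKcomp : IsCompact K := by
    apply IsCompact.of_isClosed_subset ((isCompact_closedBall (0 : ℂ) (max CT 1)).prod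
      (isCompact_closedBall (0 : ℂ) R')) hKclosed
    rintro ⟨w, ζ⟩ ⟨h1, ⟨h2, h3⟩, h4⟩
    simp only at h1 h2 h3 h4
    have h5 : ζ ∈ closedBall (0 : ℂ) R' := mem_closedBall_zero_iff.mpr (hζR' ζ h3)
    refine ⟨?_, h5⟩
    rw [mem_closedBall_zero_iff]
    have h6 : ‖w‖ ^ 3 ≤ max CT 1 := by
      rw [← norm_pow, h1]
      exact (hCT ζ h5).trans (le_max_left _ _)
    by_contra hcon2
    push Not at hcon2
    have h7 : (1 : ℝ) ≤ max CT 1 := le_max_right _ _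
    simp only at hcon2
    have h8 : 1 < ‖w‖ := lt_of_le_of_lt h7 hcon2
    have h9 : ‖w‖ ≤ ‖w‖ ^ 3 := by
      calc ‖w‖ = ‖w‖ ^ 1 := (pow_one _).symm
        _ ≤ ‖w‖ ^ 3 := pow_le_pow_right₀ h8.le (by norm_num)
    linarith
  have hWusc : UpperSemicontinuousOn W K := by
    apply UpperSemicontinuousOn.add
    · exact UpperSemicontinuousOn.comp (s := Ω) (g := F) hu.usc hF.continuous.continuousOn
        (fun q hq => hmem q.2 q.1 hq.2.1.1 hq.2.1.2 hq.1)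
    · apply ContinuousOn.upperSemicontinuousOn
      have c1 : ContinuousOn (fun q : ℂ × ℂ => Real.log (‖q.2 - c‖ / ρ)) K := by
        apply ContinuousOn.log (by fun_prop)
        intro q hq
        have : 0 < ‖q.2 - c‖ := hρ.trans_le hq.2.1.1
        positivity
      have c2 : ContinuousOn (fun q : ℂ × ℂ => Real.log ‖T q.2‖) K := by
        apply ContinuousOn.log ((hT.continuous.comp continuous_snd).norm.continuousOn)
        intro q hq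
        exact (hτpos.trans_le hq.2.2).ne'
      exact (((continuousOn_const.add (continuousOn_const.mul c1)).neg).add
        (by fun_prop)).add (continuousOn_const.mul c2)
  have hq₀K : (w₀, ζ₀) ∈ K := by
    refine ⟨hw₀, ⟨hζ₀.le, hζ₀'.le⟩, ?_⟩
    by_contra hlt
    push Not at hlt
    have := hWsmall (w₀, ζ₀) hw₀ hζ₀.le hζ₀'.le hT₀ hlt.le
    linarith
  obtain ⟨q₁, hq₁, hmax⟩ := UpperSemicontinuousOn.exists_isMaxOn ⟨_, hq₀K⟩ hKcomp hWusc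
  have hW₁ : 3 * g / 4 ≤ W q₁ := hW₀.trans (hmax hq₀K)
  obtain ⟨w₁, ζ₁⟩ := q₁
  have hw₁ : w₁ ^ 3 = T ζ₁ := hq₁.1
  have hT₁ : T ζ₁ ≠ 0 := norm_pos_iff.mp (hτpos.trans_le hq₁.2.2)
  have hτ₁ : τ < ‖T ζ₁‖ := by
    rcases hq₁.2.2.lt_or_eq with h | h
    · exact h
    · exfalso
      have := hWsmall (w₁, ζ₁) hw₁ hq₁.2.1.1 hq₁.2.1.2 hT₁ h.ge
      linarith
  have hζ₁R := hq₁.2.1.2
  simp only at hζ₁R
  have hWb : W (w₁, ζ₁) ≤ u (F (w₁, ζ₁)) - (A₁ + B * Real.log (‖ζ₁ - c‖ / ρ)) + g / 2 := by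
    simp only [hW]
    have h1 := hδR ζ₁ hζ₁R
    have h2 : ε * Real.log ‖T ζ₁‖ ≤ ε * LT := by
      gcongr
      exact hLTb ζ₁ hζ₁R hT₁
    linarith
  have hin1 : ρ < ‖ζ₁ - c‖ := by
    have h0 : ρ ≤ ‖ζ₁ - c‖ := hq₁.2.1.1
    rcases h0.lt_or_eq with h | h
    · exact h
    · exfalso
      have h1 := hA₁ ζ₁ w₁ h.symm hw₁
      rw [← h, div_self hρ.ne', Real.log_one, mul_zero, add_zero] at hWb
      linarith
  have hin2 : ‖ζ₁ - c‖ < R := by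
    rcases hζ₁R.lt_or_eq with h | h
    · exact h
    · exfalso
      have h1 := hA₂ ζ₁ w₁ h hw₁
      rw [h, hBR] at hWb
      linarith
  obtain ⟨rt, hrt1, hrt2, hrt3⟩ := exists_cbrt hT hw₁ hT₁
  set f : ℂ → Fin n → ℂ := fun ζ => F (rt ζ, ζ) with hf
  set h : ℂ → ℝ := fun ζ => (W (w₁, ζ₁) + (A₁ - B * Real.log ρ)) + (B * Real.log ‖ζ - c‖ +
    (-ε) * Real.log ‖T ζ‖) with hh
  have hfd : ∀ᶠ ζ in 𝓝 ζ₁, DifferentiableAt ℂ f ζ := by
    filter_upwards [hrt2] with ζ hζ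
    have h1 : DifferentiableAt ℂ (fun ζ => (rt ζ, ζ)) ζ := hζ.prodMk differentiableAt_id
    exact DifferentiableAt.comp (g := F) (f := fun ζ => (rt ζ, ζ)) ζ (hF (rt ζ, ζ)) h1
  have hne : ζ₁ - c ≠ 0 := norm_pos_iff.mp (hρ.trans hin1)
  have hharm : HarmonicAt h ζ₁ := by
    have h1 : HarmonicAt (fun ζ => Real.log ‖ζ - c‖) ζ₁ :=
      AnalyticAt.harmonicAt_log_norm (f := fun ζ => ζ - c) (by fun_prop) hne
    have h2 : HarmonicAt (fun ζ => Real.log ‖T ζ‖) ζ₁ :=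
      AnalyticAt.harmonicAt_log_norm (hT.analyticAt ζ₁) hT₁
    exact (harmonicAt_const _).add ((h1.const_smul (c := B)).add (h2.const_smul (c := -ε)))
  refine no_touch hΩ hu hfd (c := ζ₁) ?_ hharm hδpos ?_ ?_
  · simp only [hf, hrt1]
    exact hmem ζ₁ w₁ hin1.le hin2.le hw₁
  · have e1 : ∀ᶠ ζ in 𝓝 ζ₁, ρ < ‖ζ - c‖ :=
      (by fun_prop : ContinuousAt (fun ζ => ‖ζ - c‖) ζ₁).eventually_const_lt hin1
    have e2 : ∀ᶠ ζ in 𝓝 ζ₁, ‖ζ - c‖ < R :=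
      (by fun_prop : ContinuousAt (fun ζ => ‖ζ - c‖) ζ₁).eventually_lt_const hin2
    have e3 : ∀ᶠ ζ in 𝓝 ζ₁, τ < ‖T ζ‖ :=
      (hT.continuous.norm.continuousAt).eventually_const_lt hτ₁
    filter_upwards [e1, e2, e3, hrt3] with ζ a1 a2 a3 a4
    have h1 : W (rt ζ, ζ) ≤ W (w₁, ζ₁) := hmax ⟨a4, ⟨a1.le, a2.le⟩, a3.le⟩
    have h2 : Real.log (‖ζ - c‖ / ρ) = Real.log ‖ζ - c‖ - Real.log ρ :=
      Real.log_div (hρ.trans a1).ne' hρ.ne'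
    have h3 : W (rt ζ, ζ) = u (F (rt ζ, ζ)) + (-(A₁ + B * Real.log (‖ζ - c‖ / ρ)) +
      δ * ‖ζ‖ ^ 2 + ε * Real.log ‖T ζ‖) := rfl
    rw [h3, h2] at h1
    simp only [hf, hh]
    linarith
  · have h2 : Real.log (‖ζ₁ - c‖ / ρ) = Real.log ‖ζ₁ - c‖ - Real.log ρ :=
      Real.log_div (hρ.trans hin1).ne' hρ.ne'
    have h3 : W (w₁, ζ₁) = u (F (w₁, ζ₁)) + (-(A₁ + B * Real.log (‖ζ₁ - c‖ / ρ)) +
      δ * ‖ζ₁‖ ^ 2 + ε * Real.log ‖T ζ₁‖) := rfl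
    simp only [hf, hh, hrt1]
    rw [h3, h2]
    ring

end Pool.Agent.Helper853.Fb
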