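import Pool.Agent.Helper853.Fb.Liou

open scoped Topology ENNReal ComplexConjugate
open MeasureTheory Filter Metric InnerProductSpace

namespace Pool.Agent.Helper853.Fb

/-- the projection -/
def Pr (v : Fin 3 → ℂ) : ℂ × ℂ := (v 2, v 0 ^ 3 + v 1 ^ 3)

lemma Pr_differentiable : Differentiable ℂ Pr := by
  unfold Pr
  fun_prop

/-- the functions whose supremum exhausts -/
noncomputable def gk (k : ℕ) (v : Fin 3 → ℂ) : ℝ := (4 / 3) ^ k * ‖Hn^[k] (Pr v)‖

lemma gk_continuous (k : ℕ) : Continuous (gk k) := by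
  unfold gk
  exact continuous_const.mul
    ((Hn_iter_differentiable k).continuous.comp Pr_differentiable.continuous).norm

lemma gk_nonneg (k : ℕ) (v : Fin 3 → ℂ) : 0 ≤ gk k v := by
  unfold gk
  positivity

lemma gk_near {v : Fin 3 → ℂ} (hv : v ∈ Om) :
    ∃ C : ℝ, 0 < C ∧ ∀ᶠ w in 𝓝 v, ∀ k, gk k w ≤ C * (2 / 3) ^ k := by
  obtain ⟨C, hC, h⟩ := Ub_decay (q := Pr v) hv
  refine ⟨C, hC, ?_⟩
  filter_upwards [Pr_differentiable.continuous.continuousAt.eventually h] with w hw k
  unfold gk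
  calc (4 / 3 : ℝ) ^ k * ‖Hn^[k] (Pr w)‖ ≤ (4 / 3) ^ k * (C * (1 / 2) ^ k) := by
        gcongr
        exact hw k
    _ = C * ((4 / 3) ^ k * (1 / 2) ^ k) := by ring
    _ = C * (2 / 3) ^ k := by
      rw [← mul_pow]
      norm_num

lemma gk_bdd {v : Fin 3 → ℂ} (hv : v ∈ Om) : BddAbove (Set.range fun k => gk k v) := by
  obtain ⟨C, hC, h⟩ := gk_near hv
  refine ⟨C, ?_⟩
  rintro _ ⟨k, rfl⟩
  refine (h.self_of_nhds k).trans ?_
  have : ((2 : ℝ) / 3) ^ k ≤ 1 := pow_le_one₀ (by norm_num) (by norm_num)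
  nlinarith

/-- the supremum -/
noncomputable def Sg (v : Fin 3 → ℂ) : ℝ := ⨆ k, gk k v

lemma gk_le_Sg {v : Fin 3 → ℂ} (hv : v ∈ Om) (k : ℕ) : gk k v ≤ Sg v := le_ciSup (gk_bdd hv) k

lemma Sg_continuousOn : ContinuousOn Sg Om := by
  intro v hv
  apply ContinuousAt.continuousWithinAt
  rw [Metric.continuousAt_iff']
  intro ε hε
  obtain ⟨C, hC, h⟩ := gk_near hv
  have h1 : Tendsto (fun k : ℕ => C * (2 / 3 : ℝ) ^ k) atTop (𝓝 0) := by
    have := (tendsto_pow_atTop_nhds_zero_of_lt_one (by norm_num : (0 : ℝ) ≤ 2 / 3)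
      (by norm_num)).const_mul C
    simpa using this
  obtain ⟨K, hK⟩ := Filter.eventually_atTop.mp
    (h1.eventually_lt_const (by positivity : (0 : ℝ) < ε / 2))
  have h2 : ∀ᶠ w in 𝓝 v, ∀ k ∈ Finset.range K, |gk k w - gk k v| < ε / 2 := by
    rw [Filter.eventually_all_finset]
    intro k _
    exact Metric.continuousAt_iff'.mp (gk_continuous k).continuousAt (ε / 2) (by positivity)
  filter_upwards [h, h2, isOpen_Om.mem_nhds hv] with w hw1 hw2 hw3
  have h3 : ∀ k, |gk k w - gk k v| ≤ ε / 2 := by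
    intro k
    rcases lt_or_ge k K with hk | hk
    · exact (hw2 k (Finset.mem_range.mpr hk)).le
    · have h4 := hw1 k
      have h5 := h.self_of_nhds k
      have h6 := hK k hk
      have h7 := gk_nonneg k w
      have h8 := gk_nonneg k v
      rw [abs_le]
      constructor <;> linarith
  rw [Real.dist_eq]
  have h4 : Sg w ≤ Sg v + ε / 2 := by
    apply ciSup_le
    intro k
    have := (abs_le.mp (h3 k)).2
    have h5 := gk_le_Sg hv k
    linarith
  have h5 : Sg v ≤ Sg w + ε / 2 := by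
    apply ciSup_le
    intro k
    have := (abs_le.mp (h3 k)).1
    have h5 := gk_le_Sg hw3 k
    linarith
  have h6 : |Sg w - Sg v| ≤ ε / 2 := by
    rw [abs_le]
    constructor <;> linarith
  linarith

lemma form_eq {n : ℕ} (φ : (Fin n → ℂ) → ℝ) (a b : Fin n → ℂ) :
    (1 / (2 * Real.pi)) * ∫ θ in (0 : ℝ)..(2 * Real.pi), φ (a + Complex.exp ((θ : ℂ) * Complex.I) • b)
      = Real.circleAverage (fun ξ : ℂ => φ (a + ξ • b)) 0 1 := by
  rw [Real.circleAverage_def, smul_eq_mul, one_div]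
  simp [circleMap]

lemma norm_le_avg {E : Type*} [NormedAddCommGroup E] [NormedSpace ℂ E] [CompleteSpace E]
    {f : ℂ → E} (hf : Differentiable ℂ f) :
    ‖f 0‖ ≤ Real.circleAverage (fun ξ => ‖f ξ‖) 0 1 := by
  have h1 : Real.circleAverage f 0 1 = f 0 := hf.diffContOnCl.circleAverage
  rw [← h1, Real.circleAverage_def, Real.circleAverage_def, norm_smul,
    Real.norm_of_nonneg (by positivity), smul_eq_mul]
  gcongr
  exact intervalIntegral.norm_integral_le_integral_norm (by positivity)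

/-- the exhaustion function -/
noncomputable def ph (v : Fin 3 → ℂ) : ℝ := max ‖v‖ (Sg v)

lemma ph_continuousOn : ContinuousOn ph Om :=
  ContinuousOn.sup continuous_norm.continuousOn Sg_continuousOn

lemma ph_sm (a b : Fin 3 → ℂ) (hab : ∀ ζ : ℂ, ‖ζ‖ ≤ 1 → a + ζ • b ∈ Om) :
    ph a ≤ (1 / (2 * Real.pi)) *
      ∫ θ in (0 : ℝ)..(2 * Real.pi), ph (a + Complex.exp ((θ : ℂ) * Complex.I) • b) := by
  rw [form_eq]
  have hl : Differentiable ℂ fun ξ : ℂ => a + ξ • b := by fun_prop
  have hci : CircleIntegrable (fun ξ : ℂ => ph (a + ξ • b)) 0 1 := by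
    apply ContinuousOn.circleIntegrable zero_le_one
    apply ph_continuousOn.comp hl.continuous.continuousOn
    intro ξ hξ
    exact hab ξ (by simpa using sphere_subset_closedBall hξ)
  have ha : a ∈ Om := by simpa using hab 0 (by simp)
  apply max_le
  · have h1 := norm_le_avg hl
    simp only [zero_smul, add_zero] at h1
    refine h1.trans ?_
    apply Real.circleAverage_mono _ hci
    · intro ξ _
      exact le_max_left _ _
    · exact hl.continuous.norm.continuousOn.circleIntegrable zero_le_one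
  · apply ciSup_le
    intro k
    have h1 := norm_le_avg (f := fun ξ : ℂ => (((4 / 3 : ℝ) ^ k : ℝ) : ℂ) •
      Hn^[k] (Pr (a + ξ • b))) (by
        apply Differentiable.fun_const_smul
        exact (Hn_iter_differentiable k).comp (Pr_differentiable.comp hl))
    have e : ∀ v : Fin 3 → ℂ, ‖(((4 / 3 : ℝ) ^ k : ℝ) : ℂ) • Hn^[k] (Pr v)‖ = gk k v := by
      intro v
      rw [norm_smul, Complex.norm_real, Real.norm_of_nonneg (by positivity), gk]
    simp only [e, zero_smul, add_zero] at h1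
    refine h1.trans ?_
    apply Real.circleAverage_mono _ hci
    · intro ξ hξ
      have h2 : a + ξ • b ∈ Om := by
        apply hab
        rw [abs_one] at hξ
        simpa using sphere_subset_closedBall hξ
      exact (gk_le_Sg h2 k).trans (le_max_right _ _)
    · exact ((gk_continuous k).comp hl.continuous).continuousOn.circleIntegrable zero_le_one

lemma ph_sublevel (c : ℝ) : IsCompact (closure {z | z ∈ Om ∧ ph z < c}) ∧
    closure {z | z ∈ Om ∧ ph z < c} ⊆ Om := by
  set K : Set (Fin 3 → ℂ) := {v | ‖v‖ ≤ c ∧ ∀ k, gk k v ≤ c} with hK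
  have hKc : IsClosed K := by
    apply IsClosed.inter
    · exact isClosed_le continuous_norm continuous_const
    · have : {v : Fin 3 → ℂ | ∀ k, gk k v ≤ c} = ⋂ k, {v | gk k v ≤ c} := by
        ext v
        simp
      show IsClosed {v : Fin 3 → ℂ | ∀ k, gk k v ≤ c}
      rw [this]
      exact isClosed_iInter fun k => isClosed_le (gk_continuous k) continuous_const
  have hsub : closure {z | z ∈ Om ∧ ph z < c} ⊆ K := by
    apply closure_minimal _ hKc
    rintro v ⟨hv, hv2⟩
    refine ⟨(le_max_left _ _).trans hv2.le, fun k => ?_⟩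
    exact ((gk_le_Sg hv k).trans (le_max_right _ _)).trans hv2.le
  have hKcomp : IsCompact K := by
    apply IsCompact.of_isClosed_subset (isCompact_closedBall (0 : Fin 3 → ℂ) c) hKc
    intro v hv
    rw [mem_closedBall_zero_iff]
    exact hv.1
  refine ⟨hKcomp.of_isClosed_subset isClosed_closure hsub, hsub.trans ?_⟩
  intro v hv
  show Pr v ∈ Ub
  apply Ub_of_decay (c := c) (l := 3 / 4) (by norm_num) (by norm_num)
  intro k
  have h1 := hv.2 k
  unfold gk at h1
  calc ‖Hn^[k] (Pr v)‖ = (3 / 4) ^ k * ((4 / 3) ^ k * ‖Hn^[k] (Pr v)‖) := by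
        rw [← mul_assoc, ← mul_pow]
        norm_num
    _ ≤ (3 / 4) ^ k * c := by gcongr
    _ = c * (3 / 4) ^ k := by ring

end Pool.Agent.Helper853.Fb
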