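import Mathlib

open scoped Topology
open Filter Metric

namespace Pool.Agent.Helper853.Fb

/-- The Henon map. -/
noncomputable def Hn (q : ℂ × ℂ) : ℂ × ℂ := (q.1 ^ 8 - q.2 / 2, q.1 / 2)

/-- Its inverse. -/
noncomputable def Hi (q : ℂ × ℂ) : ℂ × ℂ := (2 * q.2, 2 * ((2 * q.2) ^ 8 - q.1))

/-- The basin of attraction of the origin. -/
def Ub : Set (ℂ × ℂ) := {q | ∃ k : ℕ, ‖Hn^[k] q‖ < 1 / 2}

lemma Hn_Hi : Function.LeftInverse Hn Hi := by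
  intro q
  ext
  · simp [Hn, Hi]
  · simp [Hn, Hi]

lemma Hi_Hn : Function.LeftInverse Hi Hn := by
  intro q
  ext
  · simp [Hn, Hi]
    ring
  · simp [Hn, Hi]
    ring

lemma Hn_differentiable : Differentiable ℂ Hn := by
  unfold Hn
  fun_prop

lemma Hi_differentiable : Differentiable ℂ Hi := by
  unfold Hi
  fun_prop

lemma Hn_iter_differentiable (k : ℕ) : Differentiable ℂ Hn^[k] :=
  Hn_differentiable.iterate k

lemma Hi_iter_differentiable (k : ℕ) : Differentiable ℂ Hi^[k] :=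
  Hi_differentiable.iterate k

lemma norm_Hn_le (q : ℂ × ℂ) : ‖Hn q‖ ≤ ‖q‖ / 2 + ‖q‖ ^ 8 := by
  have h1 : ‖q.1‖ ≤ ‖q‖ := norm_fst_le q
  have h2 : ‖q.2‖ ≤ ‖q‖ := norm_snd_le q
  rw [Hn, norm_prod_le_iff]
  constructor
  · refine (norm_sub_le _ _).trans ?_
    rw [norm_pow, norm_div]
    have : ‖q.1‖ ^ 8 ≤ ‖q‖ ^ 8 := by gcongr
    simp only [Complex.norm_ofNat]
    linarith
  · simp only [norm_div, Complex.norm_ofNat]
    have : 0 ≤ ‖q‖ ^ 8 := by positivity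
    linarith

lemma norm_Hi_le (q : ℂ × ℂ) : ‖Hi q‖ ≤ 2 * ‖q‖ * (1 + 256 * ‖q‖ ^ 7) := by
  have h1 : ‖q.1‖ ≤ ‖q‖ := norm_fst_le q
  have h2 : ‖q.2‖ ≤ ‖q‖ := norm_snd_le q
  have h0 : 0 ≤ ‖q‖ := norm_nonneg q
  rw [Hi, norm_prod_le_iff]
  constructor
  · simp only [norm_mul, Complex.norm_ofNat]
    have : 0 ≤ ‖q‖ * ‖q‖ ^ 7 := by positivity
    nlinarith
  · simp only [norm_mul, Complex.norm_ofNat]
    have h3 : ‖(2 * q.2) ^ 8 - q.1‖ ≤ (2 * ‖q‖) ^ 8 + ‖q‖ := by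
      refine (norm_sub_le _ _).trans ?_
      rw [norm_pow, norm_mul]
      simp only [Complex.norm_ofNat]
      gcongr
    calc 2 * ‖(2 * q.2) ^ 8 - q.1‖ ≤ 2 * ((2 * ‖q‖) ^ 8 + ‖q‖) := by gcongr
      _ = 2 * ‖q‖ * (1 + 256 * ‖q‖ ^ 7) := by ring

lemma Hn_iter_bound {q : ℂ × ℂ} (hq : ‖q‖ ≤ 1 / 2) (k : ℕ) :
    ‖Hn^[k] q‖ ≤ (1 / 2) ^ k * (2 - (1 / 2) ^ k) * ‖q‖ := by
  induction k with
  | zero => simp; linarith
  | succ k ih =>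
    rw [Function.iterate_succ_apply']
    set s : ℝ := (1 / 2) ^ k with hs
    have hs0 : 0 < s := by positivity
    have hs1 : s ≤ 1 := pow_le_one₀ (by norm_num) (by norm_num)
    rw [pow_succ]
    set a := ‖Hn^[k] q‖ with ha
    have ha0 : 0 ≤ a := norm_nonneg _
    have hN0 : 0 ≤ ‖q‖ := norm_nonneg _
    have ha1 : a ≤ s := by
      calc a ≤ s * (2 - s) * ‖q‖ := ih
        _ ≤ s * (2 - s) * (1 / 2) := by
          gcongr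
          exact mul_nonneg hs0.le (by linarith)
        _ ≤ s := by nlinarith
    have ha2 : a ≤ 1 / 2 := by
      calc a ≤ s * (2 - s) * ‖q‖ := ih
        _ ≤ 1 * ‖q‖ := by
          gcongr
          nlinarith [sq_nonneg (1 - s)]
        _ ≤ 1 / 2 := by linarith
    have ha7 : a ^ 7 ≤ s / 64 := by
      calc a ^ 7 = a * a ^ 6 := by ring
        _ ≤ s * (1 / 2) ^ 6 := by gcongr
        _ = s / 64 := by ring
    calc ‖Hn (Hn^[k] q)‖ ≤ a / 2 + a ^ 8 := norm_Hn_le _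
      _ = a * (1 / 2 + a ^ 7) := by ring
      _ ≤ a * (1 / 2 + s / 64) := by gcongr
      _ ≤ (s * (2 - s) * ‖q‖) * (1 / 2 + s / 64) := by gcongr
      _ = ((2 - s) * (1 / 2 + s / 64)) * (s * ‖q‖) := by ring
      _ ≤ ((1 / 2) * (2 - s * (1 / 2))) * (s * ‖q‖) := by
        apply mul_le_mul_of_nonneg_right _ (by positivity)
        nlinarith [sq_nonneg s]
      _ = s * (1 / 2) * (2 - s * (1 / 2)) * ‖q‖ := by ring

lemma Hn_iter_bound' {q : ℂ × ℂ} (hq : ‖q‖ ≤ 1 / 2) (k : ℕ) :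
    ‖Hn^[k] q‖ ≤ (1 / 2) ^ k := by
  refine (Hn_iter_bound hq k).trans ?_
  set s : ℝ := (1 / 2) ^ k with hs
  have hs0 : 0 < s := by positivity
  have hs1 : s ≤ 1 := pow_le_one₀ (by norm_num) (by norm_num)
  calc s * (2 - s) * ‖q‖ ≤ s * (2 - s) * (1 / 2) := by
        gcongr
        exact mul_nonneg hs0.le (by linarith)
    _ ≤ s := by nlinarith

lemma Hn_norm_lt {q : ℂ × ℂ} (hq : ‖q‖ < 1 / 2) (k : ℕ) : ‖Hn^[k] q‖ < 1 / 2 := by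
  refine lt_of_le_of_lt (Hn_iter_bound hq.le k) ?_
  set s : ℝ := (1 / 2) ^ k with hs
  have hs0 : 0 < s := by positivity
  have hs1 : s ≤ 1 := pow_le_one₀ (by norm_num) (by norm_num)
  calc s * (2 - s) * ‖q‖ ≤ 1 * ‖q‖ := by
        gcongr
        nlinarith [sq_nonneg (1 - s)]
    _ < 1 / 2 := by linarith

lemma Hi_iter_bound_aux {c : ℝ} (hc0 : 0 ≤ c) (hc : c ≤ 1 / 16) (m : ℕ) :
    ∀ w : ℂ × ℂ, ‖w‖ ≤ c * (1 / 2) ^ m * (1 + (1 / 2) ^ m) → ‖Hi^[m] w‖ ≤ 2 * c := by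
  induction m with
  | zero =>
    intro w hw
    simp at hw ⊢
    linarith
  | succ m ih =>
    intro w hw
    rw [Function.iterate_succ_apply]
    apply ih
    set s : ℝ := (1 / 2) ^ m with hs
    have hs0 : 0 < s := by positivity
    have hs1 : s ≤ 1 := pow_le_one₀ (by norm_num) (by norm_num)
    rw [pow_succ, ← hs] at hw
    have hw' : ‖w‖ ≤ c * s := by
      calc ‖w‖ ≤ c * (s * (1 / 2)) * (1 + s * (1 / 2)) := hw
        _ = c * s * ((1 / 2) * (1 + s * (1 / 2))) := by ring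
        _ ≤ c * s * 1 := by
          gcongr
          nlinarith
        _ = c * s := mul_one _
    have hw1 : ‖w‖ ≤ s * (1 / 16) := by
      calc ‖w‖ ≤ c * s := hw'
        _ ≤ 1 / 16 * s := by gcongr
        _ = s * (1 / 16) := by ring
    have hN : 0 ≤ ‖w‖ := norm_nonneg w
    have hw7 : ‖w‖ ^ 7 ≤ s / 16 ^ 7 := by
      calc ‖w‖ ^ 7 ≤ (s * (1 / 16)) ^ 7 := by gcongr
        _ = s * s ^ 6 / 16 ^ 7 := by ring
        _ ≤ s * 1 / 16 ^ 7 := by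
          gcongr
          exact pow_le_one₀ hs0.le hs1
        _ = s / 16 ^ 7 := by ring
    calc ‖Hi w‖ ≤ 2 * ‖w‖ * (1 + 256 * ‖w‖ ^ 7) := norm_Hi_le w
      _ ≤ 2 * (c * (s * (1 / 2)) * (1 + s * (1 / 2))) * (1 + 256 * (s / 16 ^ 7)) := by
        gcongr
      _ = c * s * ((1 + s * (1 / 2)) * (1 + 256 * (s / 16 ^ 7))) := by ring
      _ ≤ c * s * (1 + s) := by
        gcongr
        nlinarith

lemma Hi_iter_bound {c : ℝ} (hc0 : 0 ≤ c) (hc : c ≤ 1 / 16) (m : ℕ) {w : ℂ × ℂ}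
    (hw : ‖w‖ ≤ c * (1 / 2) ^ m) : ‖Hi^[m] w‖ ≤ 2 * c := by
  apply Hi_iter_bound_aux hc0 hc m
  refine hw.trans ?_
  have h1 : 0 ≤ c * (1 / 2) ^ m := by positivity
  have h2 : (0 : ℝ) ≤ (1 / 2) ^ m := by positivity
  nlinarith

lemma isOpen_Ub : IsOpen Ub := by
  have : Ub = ⋃ k : ℕ, {q | ‖Hn^[k] q‖ < 1 / 2} := by
    ext q
    simp [Ub]
  rw [this]
  apply isOpen_iUnion
  intro k
  exact isOpen_lt ((Hn_iter_differentiable k).continuous.norm) continuous_const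

lemma ball_subset_Ub {q : ℂ × ℂ} (hq : ‖q‖ < 1 / 2) : q ∈ Ub := ⟨0, hq⟩

lemma Ub_of_iter {q : ℂ × ℂ} (k : ℕ) (hq : ‖Hn^[k] q‖ < 1 / 2) : q ∈ Ub := ⟨k, hq⟩

lemma Ub_Hn {q : ℂ × ℂ} (hq : q ∈ Ub) : Hn q ∈ Ub := by
  obtain ⟨k, hk⟩ := hq
  refine ⟨k, ?_⟩
  rw [← Function.iterate_succ_apply, Function.iterate_succ_apply']
  exact Hn_norm_lt hk 1

/-- locally uniform decay -/
lemma Ub_decay {q : ℂ × ℂ} (hq : q ∈ Ub) :
    ∃ C : ℝ, 0 < C ∧ ∀ᶠ p in 𝓝 q, ∀ k, ‖Hn^[k] p‖ ≤ C * (1 / 2) ^ k := by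
  obtain ⟨k₀, hk₀⟩ := hq
  set B : ℝ := ∑ j ∈ Finset.range k₀, (‖Hn^[j] q‖ + 1) with hB
  have hB0 : 0 ≤ B := Finset.sum_nonneg fun j _ => by positivity
  refine ⟨(B + 1) * 2 ^ k₀, by positivity, ?_⟩
  have h1 : ∀ᶠ p in 𝓝 q, ‖Hn^[k₀] p‖ < 1 / 2 :=
    ((Hn_iter_differentiable k₀).continuous.norm.continuousAt).eventually_lt_const hk₀
  have h2 : ∀ᶠ p in 𝓝 q, ∀ j ∈ Finset.range k₀, ‖Hn^[j] p‖ < ‖Hn^[j] q‖ + 1 := by
    rw [Filter.eventually_all_finset]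
    intro j _
    exact ((Hn_iter_differentiable j).continuous.norm.continuousAt).eventually_lt_const
      (by linarith)
  filter_upwards [h1, h2] with p hp1 hp2 k
  rcases lt_or_ge k k₀ with hk | hk
  · have h3 : ‖Hn^[k] p‖ ≤ B := by
      refine (hp2 k (Finset.mem_range.mpr hk)).le.trans ?_
      exact Finset.single_le_sum (f := fun j => ‖Hn^[j] q‖ + 1)
        (fun j _ => by positivity) (Finset.mem_range.mpr hk)
    have h4 : (1 : ℝ) ≤ 2 ^ k₀ * (1 / 2) ^ k := by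
      have : (2 : ℝ) ^ k₀ = 2 ^ (k₀ - k) * 2 ^ k := by
        rw [← pow_add]
        congr 1
        omega
      rw [this, mul_assoc, ← mul_pow]
      norm_num
      exact one_le_pow₀ (by norm_num)
    calc ‖Hn^[k] p‖ ≤ (B + 1) * 1 := by linarith
      _ ≤ (B + 1) * (2 ^ k₀ * (1 / 2) ^ k) := by gcongr
      _ = (B + 1) * 2 ^ k₀ * (1 / 2) ^ k := by ring
  · obtain ⟨j, rfl⟩ := Nat.exists_eq_add_of_le hk
    rw [add_comm, Function.iterate_add_apply]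
    have h3 := Hn_iter_bound' hp1.le j
    have h4 : (2 : ℝ) ^ k₀ * (1 / 2) ^ (j + k₀) = (1 / 2) ^ j := by
      rw [pow_add, mul_comm ((1 / 2 : ℝ) ^ j), ← mul_assoc, ← mul_pow]
      norm_num
    calc ‖Hn^[j] (Hn^[k₀] p)‖ ≤ 1 * (1 / 2) ^ j := by linarith
      _ ≤ (B + 1) * (1 / 2) ^ j := by
        gcongr
        linarith
      _ = (B + 1) * 2 ^ k₀ * (1 / 2) ^ (j + k₀) := by
        rw [mul_assoc, h4]

lemma Ub_of_decay {q : ℂ × ℂ} {c l : ℝ} (hl0 : 0 ≤ l) (hl : l < 1)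
    (h : ∀ k, ‖Hn^[k] q‖ ≤ c * l ^ k) : q ∈ Ub := by
  have h1 : Tendsto (fun k => c * l ^ k) atTop (𝓝 0) := by
    have := (tendsto_pow_atTop_nhds_zero_of_lt_one hl0 hl).const_mul c
    simpa using this
  obtain ⟨k, hk⟩ := (h1.eventually_lt_const (by norm_num : (0 : ℝ) < 1 / 2)).exists
  exact ⟨k, (h k).trans_lt hk⟩

lemma esc_step {q : ℂ × ℂ} (h1 : 2 ≤ ‖q.1‖) (h2 : ‖q.2‖ ≤ ‖q.1‖) :
    2 ≤ ‖(Hn q).1‖ ∧ ‖(Hn q).2‖ ≤ ‖(Hn q).1‖ := by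
  have h3 : ‖q.1‖ ^ 8 - ‖q.2‖ / 2 ≤ ‖(Hn q).1‖ := by
    have := norm_sub_norm_le (q.1 ^ 8) (q.2 / 2)
    rw [norm_pow, norm_div] at this
    simpa [Hn] using this
  have h4 : 2 * ‖q.1‖ ≤ ‖q.1‖ ^ 8 := by
    have h5 : (2 : ℝ) ^ 7 ≤ ‖q.1‖ ^ 7 := by gcongr
    calc 2 * ‖q.1‖ ≤ 2 ^ 7 * ‖q.1‖ := by
          gcongr
          norm_num
      _ ≤ ‖q.1‖ ^ 7 * ‖q.1‖ := by gcongr
      _ = ‖q.1‖ ^ 8 := by ring
  have h6 : ‖(Hn q).2‖ = ‖q.1‖ / 2 := by simp [Hn]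
  rw [h6]
  constructor <;> linarith

lemma not_mem_Ub {q : ℂ × ℂ} (h1 : 2 ≤ ‖q.1‖) (h2 : ‖q.2‖ ≤ ‖q.1‖) : q ∉ Ub := by
  have h3 : ∀ k, 2 ≤ ‖(Hn^[k] q).1‖ ∧ ‖(Hn^[k] q).2‖ ≤ ‖(Hn^[k] q).1‖ := by
    intro k
    induction k with
    | zero => exact ⟨h1, h2⟩
    | succ k ih =>
      rw [Function.iterate_succ_apply']
      exact esc_step ih.1 ih.2
  rintro ⟨k, hk⟩
  have h4 := norm_fst_le (Hn^[k] q)
  linarith [(h3 k).1]

lemma Ub_lt {q : ℂ × ℂ} (hq : q ∈ Ub) : ‖q.1‖ < max 2 ‖q.2‖ := by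
  by_contra hcon
  push Not at hcon
  exact not_mem_Ub ((le_max_left _ _).trans hcon) ((le_max_right _ _).trans hcon) hq

lemma Ub_lt' {q : ℂ × ℂ} (hq : q ∈ Ub) : ‖q.1 ^ 8 - q.2 / 2‖ < max 2 (‖q.1‖ / 2) := by
  have := Ub_lt (Ub_Hn hq)
  simpa [Hn] using this

end Pool.Agent.Helper853.Fb
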