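import Pool.Agent.Helper853.Fb.Cov
import Pool.Agent.Helper853.Fb.Hen

open scoped Topology ENNReal ComplexConjugate
open MeasureTheory Filter Metric InnerProductSpace

namespace Pool.Agent.Helper853.Fb

/-- The domain. -/
def Om : Set (Fin 3 → ℂ) := {v | (v 2, v 0 ^ 3 + v 1 ^ 3) ∈ Ub}

lemma isOpen_Om : IsOpen Om := by
  apply isOpen_Ub.preimage (f := fun v : Fin 3 → ℂ => (v 2, v 0 ^ 3 + v 1 ^ 3))
  fun_prop

lemma mem_Om {x y z : ℂ} : ![x, y, z] ∈ Om ↔ (z, x ^ 3 + y ^ 3) ∈ Ub := by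
  simp [Om]

lemma BPsh.near {n : ℕ} {Ω : Set (Fin n → ℂ)} (hΩ : IsOpen Ω) {u : (Fin n → ℂ) → ℝ} {M : ℝ}
    (hu : BPsh Ω u M) {p : Fin n → ℂ} (hp : p ∈ Ω) {ε : ℝ} (hε : 0 < ε) :
    ∃ δ > 0, ∀ v, ‖v - p‖ < δ → u v < u p + ε := by
  have h1 := hu.usc p hp (u p + ε) (by linarith)
  rw [hΩ.nhdsWithin_eq hp] at h1
  obtain ⟨δ, hδ, h2⟩ := Metric.eventually_nhds_iff.mp h1
  exact ⟨δ, hδ, fun v hv => h2 (by rwa [dist_eq_norm])⟩

lemma norm_lt3 {a b c : ℂ} {δ : ℝ} (hδ : 0 < δ) (ha : ‖a‖ < δ) (hb : ‖b‖ < δ) (hc : ‖c‖ < δ) :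
    ‖(![a, b, c] : Fin 3 → ℂ)‖ < δ := by
  rw [pi_norm_lt_iff hδ]
  intro i
  fin_cases i <;> simpa

lemma cube_lt {w : ℂ} {δ : ℝ} (hδ : 0 < δ) (h : ‖w ^ 3‖ < δ ^ 3) : ‖w‖ < δ := by
  rw [norm_pow] at h
  exact lt_of_pow_lt_pow_left₀ 3 hδ.le h

lemma tendsto_log_ratio (a : ℝ) {ρ : ℝ} (hρ : 0 < ρ) {R : ℕ → ℝ} (hR : Tendsto R atTop atTop) :
    Tendsto (fun k => Real.log a / Real.log (R k / ρ)) atTop (𝓝 0) := by
  have h1 : Tendsto (fun k => Real.log (R k / ρ)) atTop atTop :=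
    Real.tendsto_log_atTop.comp (hR.atTop_div_const hρ)
  exact Tendsto.const_div_atTop h1 _

lemma exists_cube (t : ℂ) : ∃ x : ℂ, x ^ 3 = t :=
  IsAlgClosed.exists_pow_nat_eq t (by norm_num)

section
variable {u : (Fin 3 → ℂ) → ℝ} {M : ℝ}

/-- Step A for `y ≠ 0`, general form: `e` says which coordinate is the parameter -/
lemma stepA (hu : BPsh Om u M) {x y z x₁ : ℂ} (hy : y ≠ 0) (hx₁ : x₁ ^ 3 = x ^ 3 + y ^ 3)
    (hm : (z, x ^ 3 + y ^ 3) ∈ Ub) : u ![x, y, z] ≤ u ![x₁, 0, z] := by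
  set t := x ^ 3 + y ^ 3 with ht
  have hp : ![x₁, 0, z] ∈ Om := by
    rw [mem_Om, hx₁]
    simpa using hm
  apply le_of_forall_pos_le_add
  intro ε hε
  obtain ⟨δ, hδ, hnear⟩ := hu.near isOpen_Om hp hε
  set T : ℂ → ℂ := fun ζ => t - ζ ^ 3 with hT
  have hTd : Differentiable ℂ T := by fun_prop
  set F : ℂ × ℂ → Fin 3 → ℂ := fun q => ![q.2, q.1, z] with hF
  have hFd : Differentiable ℂ F := by
    rw [differentiable_pi]
    intro i
    fin_cases i <;> simp [hF]
  have hT1 : T x₁ = 0 := by simp [hT, hx₁]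
  have hev : ∀ᶠ ζ in 𝓝 x₁, ‖T ζ‖ < δ ^ 3 := by
    apply (hTd.continuous.norm.continuousAt).eventually_lt_const
    show ‖T x₁‖ < δ ^ 3
    rw [hT1, norm_zero]
    positivity
  obtain ⟨ρ₁, hρ₁, hball⟩ := Metric.eventually_nhds_iff.mp hev
  have hx : x ≠ x₁ := by
    rintro rfl
    apply hy
    have : y ^ 3 = 0 := by
      have : x ^ 3 = x ^ 3 + y ^ 3 := hx₁
      linear_combination this.symm
    exact pow_eq_zero_iff (by norm_num) |>.mp this
  have hxd : 0 < ‖x - x₁‖ := norm_pos_iff.mpr (sub_ne_zero.mpr hx)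
  obtain ⟨ρ, hρ, hρ1, hρ2, hρ3⟩ : ∃ ρ : ℝ, 0 < ρ ∧ ρ < ρ₁ ∧ ρ < δ ∧ ρ < ‖x - x₁‖ := by
    refine ⟨min ρ₁ (min δ ‖x - x₁‖) / 2, by positivity, ?_, ?_, ?_⟩
    · have : min ρ₁ (min δ ‖x - x₁‖) ≤ ρ₁ := min_le_left _ _
      linarith
    · have : min ρ₁ (min δ ‖x - x₁‖) ≤ δ := (min_le_right _ _).trans (min_le_left _ _)
      linarith
    · have : min ρ₁ (min δ ‖x - x₁‖) ≤ ‖x - x₁‖ := (min_le_right _ _).trans (min_le_right _ _)
      linarith
  set A₁ := u ![x₁, 0, z] + ε with hA₁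
  have hMp : u ![x₁, 0, z] ≤ M := (abs_le.mp (hu.bd _ hp)).2
  have hmem : ∀ ζ w : ℂ, w ^ 3 = T ζ → F (w, ζ) ∈ Om := by
    intro ζ w hw
    simp only [hF]
    rw [mem_Om, hw]
    simpa [hT] using hm
  have hmain : ∀ k : ℕ, u ![x, y, z] ≤ A₁ + (M + ε - A₁) * (Real.log (‖x - x₁‖ / ρ) /
      Real.log ((‖x - x₁‖ + 1 + k) / ρ)) := by
    intro k
    have hk : (0 : ℝ) ≤ k := Nat.cast_nonneg k
    refine cover_compare isOpen_Om hu hTd hFd hρ (R := ‖x - x₁‖ + 1 + k) (by linarith)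
      (fun ζ w _ _ hw => hmem ζ w hw) (A₁ := A₁) (A₂ := M + ε) ?_ ?_ (by linarith)
      (ζ₀ := x) (w₀ := y) hρ3 (by linarith) ?_ ?_
    · intro ζ w h1 h2
      have h3 : ‖T ζ‖ < δ ^ 3 := hball (by rw [dist_eq_norm, h1]; exact hρ1)
      rw [← h2] at h3
      have h4 := cube_lt hδ h3
      apply (hnear _ _).le
      have : F (w, ζ) - ![x₁, 0, z] = ![ζ - x₁, w, 0] := by
        ext i
        fin_cases i <;> simp [hF]
      rw [this]
      exact norm_lt3 hδ (by rw [h1]; exact hρ2) h4 (by simpa using hδ)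
    · intro ζ w _ h2
      have := (abs_le.mp (hu.bd _ (hmem ζ w h2))).2
      linarith
    · simp [hT, ht]
    · simp only [hT, ht]
      rw [add_sub_cancel_left]
      exact pow_ne_zero 3 hy
  have hlim : Tendsto (fun k : ℕ => A₁ + (M + ε - A₁) * (Real.log (‖x - x₁‖ / ρ) /
      Real.log ((‖x - x₁‖ + 1 + k) / ρ))) atTop (𝓝 (A₁ + (M + ε - A₁) * 0)) := by
    refine ((tendsto_log_ratio _ hρ ?_).const_mul _).const_add _
    exact tendsto_atTop_add_const_left _ _ tendsto_natCast_atTop_atTop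
  rw [mul_zero, add_zero] at hlim
  exact ge_of_tendsto' hlim hmain

/-- exchange of the first two coordinates -/
lemma BPsh.swap (hu : BPsh Om u M) : BPsh Om (fun v => u ![v 1, v 0, v 2]) M := by
  have hmem : ∀ v ∈ Om, ![v 1, v 0, v 2] ∈ Om := by
    intro v hv
    rw [mem_Om, add_comm]
    exact hv
  refine ⟨?_, ?_, ?_⟩
  · refine UpperSemicontinuousOn.comp (s := Om) (g := fun v : Fin 3 → ℂ => ![v 1, v 0, v 2])
      hu.usc (Continuous.continuousOn ?_) hmem
    rw [continuous_pi_iff]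
    intro i
    fin_cases i <;> simp <;> fun_prop
  · intro v hv
    exact hu.bd _ (hmem v hv)
  · intro a b hab
    have e : ∀ ζ : ℂ, ![(a + ζ • b) 1, (a + ζ • b) 0, (a + ζ • b) 2] =
        ![a 1, a 0, a 2] + ζ • ![b 1, b 0, b 2] := by
      intro ζ
      ext i
      fin_cases i <;> simp
    have h1 := hu.sm ![a 1, a 0, a 2] ![b 1, b 0, b 2] (by
      intro ζ hζ
      rw [← e]
      exact hmem _ (hab ζ hζ))
    simp_rw [← e] at h1
    exact h1

lemma stepA' (hu : BPsh Om u M) {x y z x₁ : ℂ} (hx₁ : x₁ ^ 3 = x ^ 3 + y ^ 3)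
    (hm : (z, x ^ 3 + y ^ 3) ∈ Ub) : u ![x, y, z] ≤ u ![x₁, 0, z] := by
  by_cases hy : y = 0
  · subst hy
    by_cases hx : x = 0
    · subst hx
      have : x₁ = 0 := by
        have : x₁ ^ 3 = 0 := by
          rw [hx₁]
          norm_num
        exact pow_eq_zero_iff (by norm_num) |>.mp this
      rw [this]
    · have h1 : u ![x, 0, z] ≤ u ![0, x, z] := by
        have := stepA hu.swap (x := 0) (y := x) (z := z) (x₁ := x) hx (by ring)
          (by simpa using hm)
        simpa using this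
      have h2 : u ![0, x, z] ≤ u ![x₁, 0, z] := by
        apply stepA hu hx
        · rw [hx₁]
          ring
        · simpa using hm
      exact h1.trans h2
  · exact stepA hu hy hx₁ hm

/-- Step B -/
lemma stepB (hu : BPsh Om u M) {x₁ z t : ℂ} (ht : t ≠ 0) (hx₁ : x₁ ^ 3 = t)
    (hm : (z, t) ∈ Ub) : u ![x₁, 0, z] ≤ u 0 := by
  have hp : (0 : Fin 3 → ℂ) ∈ Om := by
    show (_, _) ∈ Ub
    apply ball_subset_Ub
    simp
  apply le_of_forall_pos_le_add
  intro ε hε
  obtain ⟨δ, hδ, hnear⟩ := hu.near isOpen_Om hp hε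
  simp only [sub_zero] at hnear
  obtain ⟨C, hC, hdec⟩ := Ub_decay hm
  have hdec' : ∀ k, ‖Hn^[k] (z, t)‖ ≤ C * (1 / 2) ^ k := hdec.self_of_nhds
  obtain ⟨c₀, hc₀, hc1, hc2, hc3⟩ : ∃ c₀ : ℝ, 0 < c₀ ∧ c₀ ≤ 1 / 16 ∧ 2 * c₀ < δ ∧
      2 * c₀ < δ ^ 3 := by
    refine ⟨min (1 / 16) (min (δ / 4) (δ ^ 3 / 4)), by positivity, min_le_left _ _, ?_, ?_⟩
    · have : min (1 / 16) (min (δ / 4) (δ ^ 3 / 4)) ≤ δ / 4 :=
        (min_le_right _ _).trans (min_le_left _ _)
      linarith
    · have : min (1 / 16) (min (δ / 4) (δ ^ 3 / 4)) ≤ δ ^ 3 / 4 :=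
        (min_le_right _ _).trans (min_le_right _ _)
      have h3 : 0 < δ ^ 3 := by positivity
      linarith
  obtain ⟨ρ, hρ, hρ1, hρ2⟩ : ∃ ρ : ℝ, 0 < ρ ∧ ρ * C ≤ c₀ ∧ ρ < 1 := by
    refine ⟨min (c₀ / C) (1 / 2), by positivity, ?_, ?_⟩
    · rw [← le_div_iff₀ hC]
      exact min_le_left _ _
    · exact (min_le_right _ _).trans_lt (by norm_num)
  set A₁ := u 0 + ε with hA₁
  have hMp : u 0 ≤ M := (abs_le.mp (hu.bd _ hp)).2
  have hRk : Tendsto (fun k : ℕ => (2 : ℝ) ^ k / (4 * C)) atTop atTop :=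
    (tendsto_pow_atTop_atTop_of_one_lt (by norm_num)).atTop_div_const (by positivity)
  have hmain : ∀ᶠ k : ℕ in atTop, u ![x₁, 0, z] ≤ A₁ + (M + ε - A₁) * (Real.log (1 / ρ) /
      Real.log ((2 : ℝ) ^ k / (4 * C) / ρ)) := by
    filter_upwards [hRk.eventually_gt_atTop 1] with k hk
    set R : ℝ := (2 : ℝ) ^ k / (4 * C) with hR
    set q := Hn^[k] (z, t) with hq
    have hqn : ‖q‖ ≤ C * (1 / 2) ^ k := hdec' k
    set G : ℂ → ℂ × ℂ := fun ζ => Hi^[k] (ζ • q) with hG
    have hGd : Differentiable ℂ G := by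
      have h1 : Differentiable ℂ (fun ζ : ℂ => ζ • q) := by fun_prop
      exact (Hi_iter_differentiable k).comp h1
    have hTd : Differentiable ℂ (fun ζ => (G ζ).2) := by fun_prop
    have hZd : Differentiable ℂ (fun ζ => (G ζ).1) := by fun_prop
    have hFd : Differentiable ℂ (fun p : ℂ × ℂ => (![p.1, 0, (G p.2).1] : Fin 3 → ℂ)) := by
      rw [differentiable_pi]
      intro i
      fin_cases i
      · simp
      · simp
      · simp
        exact hZd.comp differentiable_snd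
    have hG1 : G 1 = (z, t) := by
      simp only [hG, one_smul, hq]
      exact (Hi_Hn.iterate k) (z, t)
    have hHG : ∀ ζ, Hn^[k] (G ζ) = ζ • q := fun ζ => (Hn_Hi.iterate k) (ζ • q)
    have hGU : ∀ ζ : ℂ, ‖ζ‖ ≤ R → G ζ ∈ Ub := by
      intro ζ hζ
      apply Ub_of_iter k
      rw [hHG, norm_smul]
      calc ‖ζ‖ * ‖q‖ ≤ R * (C * (1 / 2) ^ k) := by gcongr
        _ = 1 / 4 * (2 ^ k * (1 / 2) ^ k) := by
          rw [hR]
          field_simp
        _ = 1 / 4 := by
          rw [← mul_pow]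
          norm_num
        _ < 1 / 2 := by norm_num
    have hmem : ∀ ζ w : ℂ, ‖ζ‖ ≤ R → w ^ 3 = (G ζ).2 →
        (![w, 0, (G ζ).1] : Fin 3 → ℂ) ∈ Om := by
      intro ζ w hζ hw
      rw [mem_Om]
      have : ((G ζ).1, w ^ 3 + 0 ^ 3) = G ζ := by
        rw [hw]
        simp
      rw [this]
      exact hGU ζ hζ
    have hcmp := cover_compare isOpen_Om hu hTd hFd (c := 0) hρ (R := R) (by linarith)
      (fun ζ w _ h2 hw => hmem ζ w (by simpa using h2) hw) (A₁ := A₁) (A₂ := M + ε) ?_ ?_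
      (by linarith) (ζ₀ := 1) (w₀ := x₁) (by simpa using hρ2) (by simpa using hk) ?_ ?_
    · simp only [sub_zero, norm_one] at hcmp
      rw [hG1] at hcmp
      exact hcmp
    · intro ζ w h1 h2
      rw [sub_zero] at h1
      have h3 : ‖G ζ‖ ≤ 2 * c₀ := by
        apply Hi_iter_bound hc₀.le hc1 k
        rw [norm_smul, h1]
        calc ρ * ‖q‖ ≤ ρ * (C * (1 / 2) ^ k) := by gcongr
          _ = (ρ * C) * (1 / 2) ^ k := by ring
          _ ≤ c₀ * (1 / 2) ^ k := by gcongr
      have h4 : ‖w‖ < δ := by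
        apply cube_lt hδ
        rw [h2]
        exact ((norm_snd_le _).trans h3).trans_lt hc3
      apply (hnear _ _).le
      exact norm_lt3 hδ h4 (by simpa using hδ) (((norm_fst_le _).trans h3).trans_lt hc2)
    · intro ζ w h1 h2
      rw [sub_zero] at h1
      have := (abs_le.mp (hu.bd _ (hmem ζ w h1.le h2))).2
      linarith
    · rw [hG1]
      exact hx₁
    · rw [hG1]
      exact ht
  have hlim : Tendsto (fun k : ℕ => A₁ + (M + ε - A₁) * (Real.log (1 / ρ) /
      Real.log ((2 : ℝ) ^ k / (4 * C) / ρ))) atTop (𝓝 (A₁ + (M + ε - A₁) * 0)) :=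
    ((tendsto_log_ratio _ hρ hRk).const_mul _).const_add _
  rw [mul_zero, add_zero] at hlim
  exact ge_of_tendsto hlim hmain

lemma zero_mem_Om : (0 : Fin 3 → ℂ) ∈ Om := by
  show (_, _) ∈ Ub
  apply ball_subset_Ub
  simp

/-- every bounded psh function is maximal at the origin -/
lemma le_zero (hu : BPsh Om u M) {v : Fin 3 → ℂ} (hv : v ∈ Om) : u v ≤ u 0 := by
  have hv' : v = ![v 0, v 1, v 2] := by
    ext i
    fin_cases i <;> simp
  obtain ⟨x₁, hx₁⟩ := exists_cube (v 0 ^ 3 + v 1 ^ 3)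
  have h1 : u v ≤ u ![x₁, 0, v 2] := by
    conv_lhs => rw [hv']
    exact stepA' hu hx₁ hv
  refine h1.trans ?_
  by_cases ht : v 0 ^ 3 + v 1 ^ 3 = 0
  · rw [ht] at hx₁
    have hx0 : x₁ = 0 := pow_eq_zero_iff (by norm_num) |>.mp hx₁
    rw [hx0]
    have hU : (v 2, (0 : ℂ)) ∈ Ub := by
      rw [← ht]
      exact hv
    have hcont : ContinuousAt (fun ζ : ℂ => (v 2, ζ ^ 3)) 0 := by fun_prop
    have hev : ∀ᶠ ζ : ℂ in 𝓝 0, (v 2, ζ ^ 3) ∈ Ub := by
      apply hcont.eventually_mem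
      apply isOpen_Ub.mem_nhds
      simpa using hU
    obtain ⟨r, hr, hball⟩ := Metric.eventually_nhds_iff_ball.mp hev
    have hmem : ∀ ξ : ℂ, ‖ξ‖ ≤ r / 2 → (![0, 0, v 2] : Fin 3 → ℂ) + ξ • ![1, 0, 0] ∈ Om := by
      intro ξ hξ
      have e : (![0, 0, v 2] : Fin 3 → ℂ) + ξ • ![1, 0, 0] = ![ξ, 0, v 2] := by
        ext i
        fin_cases i <;> simp
      rw [e, mem_Om]
      have := hball ξ (by
        rw [mem_ball_zero_iff]
        linarith)
      simpa using this
    refine (hu.avg (a := ![0, 0, v 2]) (b := ![1, 0, 0]) (lam := r / 2) (by positivity)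
      hmem).trans ?_
    apply Real.circleAverage_mono_on_of_le_circle (hu.circ (by positivity) hmem)
    intro ξ hξ
    have hξ' : ‖ξ‖ = r / 2 := by
      rw [mem_sphere_zero_iff_norm, abs_of_pos (by positivity)] at hξ
      exact hξ
    have e : (![0, 0, v 2] : Fin 3 → ℂ) + ξ • ![1, 0, 0] = ![ξ, 0, v 2] := by
      ext i
      fin_cases i <;> simp
    have h2 := hmem ξ hξ'.le
    rw [e, mem_Om] at h2
    rw [e]
    apply stepB hu (t := ξ ^ 3) _ rfl (by simpa using h2)
    apply pow_ne_zero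
    intro h0
    rw [h0, norm_zero] at hξ'
    linarith
  · exact stepB hu ht hx₁ hv

end

/-- `Om` is connected -/
lemma isPreconnected_Om : IsPreconnected Om := by
  have key : ∀ A B : Set (Fin 3 → ℂ), IsOpen A → IsOpen B → Om ⊆ A ∪ B →
      (Om ∩ (A ∩ B)) = ∅ → (0 : Fin 3 → ℂ) ∈ A → ∀ v ∈ Om, v ∉ B := by
    intro A B hA hB hAB hemp h0 v hv hvB
    classical
    have hdisj : ∀ w ∈ Om, w ∈ A → w ∉ B := by
      intro w hw hwA hwB
      have : w ∈ Om ∩ (A ∩ B) := ⟨hw, hwA, hwB⟩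
      rw [hemp] at this
      exact this
    set u : (Fin 3 → ℂ) → ℝ := fun v => if v ∈ B then 1 else 0 with hu
    have hu0 : ∀ v, 0 ≤ u v := by
      intro v
      simp only [hu]
      split_ifs <;> norm_num
    have hu1 : ∀ v, u v ≤ 1 := by
      intro v
      simp only [hu]
      split_ifs <;> norm_num
    have hps : BPsh Om u 1 := by
      refine ⟨?_, ?_, ?_⟩
      · intro w hw y hy
        by_cases hwB : w ∈ B
        · have : u w = 1 := by simp [hu, hwB]
          rw [this] at hy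
          exact Filter.Eventually.of_forall fun w' => (hu1 w').trans_lt hy
        · have h1 : u w = 0 := by simp [hu, hwB]
          rw [h1] at hy
          have hwA : w ∈ A := (hAB hw).resolve_right hwB
          have h2 : ∀ᶠ w' in 𝓝[Om] w, w' ∈ A := mem_nhdsWithin_of_mem_nhds (hA.mem_nhds hwA)
          filter_upwards [h2, self_mem_nhdsWithin] with w' h3 h4
          have : u w' = 0 := by simp [hu, hdisj w' h4 h3]
          rw [this]
          exact hy
      · intro w _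
        rw [abs_of_nonneg (hu0 w)]
        exact hu1 w
      · intro a b hab
        by_cases haB : a ∈ B
        · have hsub : (fun ζ : ℂ => a + ζ • b) '' closedBall 0 1 ⊆ B ∩ Om := by
            apply IsPreconnected.subset_left_of_subset_union (hB.inter isOpen_Om)
              (hA.inter isOpen_Om)
            · rw [Set.disjoint_left]
              rintro w ⟨h1, h2⟩ ⟨h3, _⟩
              exact hdisj w h2 h3 h1
            · rintro w ⟨ζ, hζ, rfl⟩
              have h1 := hab ζ (by simpa using hζ)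
              rcases hAB h1 with h2 | h2
              · exact Or.inr ⟨h2, h1⟩
              · exact Or.inl ⟨h2, h1⟩
            · refine ⟨a, ⟨0, by simp, by simp⟩, haB, ?_⟩
              simpa using hab 0 (by simp)
            · exact ((convex_closedBall (0 : ℂ) 1).isPreconnected).image _
                (by fun_prop : Continuous fun ζ : ℂ => a + ζ • b).continuousOn
          have h1 : ∀ θ : ℝ, u (a + Complex.exp ((θ : ℂ) * Complex.I) • b) = 1 := by
            intro θ
            have h2 : a + Complex.exp ((θ : ℂ) * Complex.I) • b ∈ B := by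
              apply (hsub ⟨Complex.exp ((θ : ℂ) * Complex.I), ?_, rfl⟩).1
              simp [Complex.norm_exp]
            simp [hu, h2]
          simp_rw [h1]
          have h3 : u a = 1 := by simp [hu, haB]
          rw [h3]
          simp
          field_simp
          exact le_refl _
        · have h1 : u a = 0 := by simp [hu, haB]
          rw [h1]
          apply mul_nonneg (by positivity)
          apply intervalIntegral.integral_nonneg (by positivity)
          intro θ _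
          exact hu0 _
    have h1 := le_zero hps hv
    have h2 : u v = 1 := by simp [hu, hvB]
    have h3 : u 0 = 0 := by simp [hu, hdisj 0 zero_mem_Om h0]
    rw [h2, h3] at h1
    linarith
  intro A B hA hB hAB hneA hneB
  by_contra hemp
  rw [Set.not_nonempty_iff_eq_empty] at hemp
  rcases hAB zero_mem_Om with h0 | h0
  · obtain ⟨v, hv, hvB⟩ := hneB
    exact key A B hA hB hAB hemp h0 v hv hvB
  · obtain ⟨v, hv, hvA⟩ := hneA
    exact key B A hB hA (by rwa [Set.union_comm]) (by rwa [Set.inter_comm B A]) h0 v hv hvA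

lemma isConnected_Om : IsConnected Om := ⟨⟨0, zero_mem_Om⟩, isPreconnected_Om⟩

/-- strong maximum principle -/
lemma eq_zero_val {u : (Fin 3 → ℂ) → ℝ} {M : ℝ} (hu : BPsh Om u M) {v : Fin 3 → ℂ}
    (hv : v ∈ Om) : u v = u 0 := by
  set m := u 0 with hm
  have hle : ∀ w ∈ Om, u w ≤ m := fun w hw => le_zero hu hw
  set E : Set (Fin 3 → ℂ) := {w | w ∈ Om ∧ m ≤ u w} with hE
  set E' : Set (Fin 3 → ℂ) := {w | w ∈ Om ∧ u w < m} with hE'
  have hE'o : IsOpen E' := by
    rw [isOpen_iff_mem_nhds]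
    rintro w ⟨hw, hw2⟩
    have h1 := hu.usc w hw m hw2
    rw [isOpen_Om.nhdsWithin_eq hw] at h1
    filter_upwards [h1, isOpen_Om.mem_nhds hw] with w' h2 h3
    exact ⟨h3, h2⟩
  have hEo : IsOpen E := by
    rw [Metric.isOpen_iff]
    rintro w ⟨hw, hw2⟩
    obtain ⟨r, hr, hball⟩ := Metric.isOpen_iff.mp isOpen_Om w hw
    refine ⟨r, hr, ?_⟩
    intro w' hw'
    refine ⟨hball hw', ?_⟩
    by_contra hlt
    push Not at hlt
    set b := w' - w with hb
    have hbn : ‖b‖ < r := by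
      rw [mem_ball, dist_eq_norm] at hw'
      exact hw'
    have hab : ∀ ξ : ℂ, ‖ξ‖ ≤ 1 → w + ξ • b ∈ Om := by
      intro ξ hξ
      apply hball
      rw [mem_ball, dist_eq_norm, add_sub_cancel_left, norm_smul]
      calc ‖ξ‖ * ‖b‖ ≤ 1 * ‖b‖ := by gcongr
        _ < r := by linarith
    have h1 := hu.avg (lam := 1) one_pos hab
    have hci := hu.circ (lam := 1) one_pos hab
    obtain ⟨c, hc1, hc2⟩ := exists_between hlt
    set f : ℝ → ℝ := fun θ => u (w + circleMap 0 1 θ • b) with hf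
    have hfm : ∀ θ, f θ ≤ m := fun θ => hle _ (hab _ (by simp [circleMap]))
    have hcm : Continuous fun θ : ℝ => w + circleMap 0 1 θ • b :=
      continuous_const.add ((continuous_circleMap 0 1).smul continuous_const)
    have h0 : w + circleMap 0 1 0 • b = w' := by
      simp [circleMap, hb]
    have hev : ∀ᶠ θ in 𝓝 (0 : ℝ), f θ < c := by
      have h2 : ∀ᶠ p in 𝓝 w', u p < c := by
        have := hu.usc w' (hball hw') c hc1
        rwa [isOpen_Om.nhdsWithin_eq (hball hw')] at this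
      rw [← h0] at h2
      exact hcm.continuousAt.eventually h2
    obtain ⟨η, hη, hη2⟩ := Metric.eventually_nhds_iff.mp hev
    set η' := min (η / 2) 1 with hη'
    have hη'0 : 0 < η' := by positivity
    have hη'1 : η' ≤ 1 := min_le_right _ _
    have hη'2 : η' < η := (min_le_left _ _).trans_lt (by linarith)
    have hpi := Real.pi_gt_three
    have hfi : IntervalIntegrable f volume 0 (2 * Real.pi) := hci
    have hfi1 : IntervalIntegrable f volume 0 η' := by
      apply hfi.mono_set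
      rw [Set.uIcc_of_le hη'0.le, Set.uIcc_of_le (by positivity)]
      apply Set.Icc_subset_Icc_right
      linarith
    have hfi2 : IntervalIntegrable f volume η' (2 * Real.pi) := by
      apply hfi.mono_set
      rw [Set.uIcc_of_le (by linarith), Set.uIcc_of_le (by positivity)]
      exact Set.Icc_subset_Icc_left hη'0.le
    have hi1 : ∫ θ in (0 : ℝ)..η', f θ ≤ c * η' := by
      have := intervalIntegral.integral_mono_on (μ := volume) hη'0.le hfi1
        (intervalIntegrable_const (c := c)) (fun θ hθ => (hη2 (by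
          rw [dist_zero_right, Real.norm_of_nonneg hθ.1]
          exact hθ.2.trans_lt hη'2)).le)
      simpa [mul_comm] using this
    have hi2 : ∫ θ in η'..(2 * Real.pi), f θ ≤ m * (2 * Real.pi - η') := by
      have := intervalIntegral.integral_mono_on (μ := volume) (by linarith) hfi2
        (intervalIntegrable_const (c := m)) (fun θ _ => hfm θ)
      simpa [mul_comm] using this
    have hsum : ∫ θ in (0 : ℝ)..(2 * Real.pi), f θ = (∫ θ in (0 : ℝ)..η', f θ) +
        ∫ θ in η'..(2 * Real.pi), f θ :=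
      (intervalIntegral.integral_add_adjacent_intervals hfi1 hfi2).symm
    rw [Real.circleAverage_def, smul_eq_mul] at h1
    have h3 : m ≤ (2 * Real.pi)⁻¹ * (c * η' + m * (2 * Real.pi - η')) := by
      refine hw2.trans (h1.trans ?_)
      gcongr
      show ∫ θ in (0 : ℝ)..(2 * Real.pi), f θ ≤ _
      rw [hsum]
      exact add_le_add hi1 hi2
    rw [inv_mul_eq_div, le_div_iff₀ (by positivity)] at h3
    nlinarith
  have hcov : Om ⊆ E ∪ E' := by
    intro w hw
    rcases le_or_gt m (u w) with h | h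
    · exact Or.inl ⟨hw, h⟩
    · exact Or.inr ⟨hw, h⟩
  have hsub : Om ⊆ E := by
    apply IsPreconnected.subset_left_of_subset_union hEo hE'o _ hcov ⟨0, zero_mem_Om,
      zero_mem_Om, le_refl _⟩ isPreconnected_Om
    rw [Set.disjoint_left]
    rintro w ⟨_, h1⟩ ⟨_, h2⟩
    linarith
  exact le_antisymm (hle v hv) (hsub hv).2

end Pool.Agent.Helper853.Fb
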