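import Mathlib

open scoped Topology ENNReal ComplexConjugate ContDiff
open MeasureTheory Filter Metric InnerProductSpace

namespace Pool.Agent.Helper853.Fb

variable {n : ℕ}

/-- bounded plurisubharmonic functions -/
structure BPsh (Ω : Set (Fin n → ℂ)) (u : (Fin n → ℂ) → ℝ) (M : ℝ) : Prop where
  usc : UpperSemicontinuousOn u Ω
  bd : ∀ z ∈ Ω, |u z| ≤ M
  sm : ∀ a b : Fin n → ℂ, (∀ ζ : ℂ, ‖ζ‖ ≤ 1 → a + ζ • b ∈ Ω) →
    u a ≤ (1 / (2 * Real.pi)) *
      ∫ θ in (0 : ℝ)..(2 * Real.pi), u (a + Complex.exp ((θ : ℂ) * Complex.I) • b)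

lemma BPsh.circ {Ω : Set (Fin n → ℂ)} {u : (Fin n → ℂ) → ℝ} {M : ℝ} (hu : BPsh Ω u M)
    {a b : Fin n → ℂ} {lam : ℝ} (hl : 0 < lam) (hab : ∀ ξ : ℂ, ‖ξ‖ ≤ lam → a + ξ • b ∈ Ω) :
    CircleIntegrable (fun ξ : ℂ => u (a + ξ • b)) 0 lam := by
  have hmem : ∀ θ : ℝ, a + circleMap 0 lam θ • b ∈ Ω := by
    intro θ
    apply hab
    simp [circleMap, abs_of_pos hl]
  have husc : UpperSemicontinuous fun θ : ℝ => u (a + circleMap 0 lam θ • b) := by
    rw [← upperSemicontinuousOn_univ_iff]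
    have hc : Continuous fun θ : ℝ => a + circleMap 0 lam θ • b :=
      continuous_const.add ((continuous_circleMap 0 lam).smul continuous_const)
    exact UpperSemicontinuousOn.comp (s := Ω)
      (g := fun θ : ℝ => a + circleMap 0 lam θ • b) hu.usc hc.continuousOn
      (fun θ _ => hmem θ)
  unfold CircleIntegrable
  rw [intervalIntegrable_iff_integrableOn_Icc_of_le (by positivity)]
  apply Measure.integrableOn_of_bounded (M := M)
    (by rw [Real.volume_Icc]; exact ENNReal.ofReal_ne_top) husc.measurable.aestronglyMeasurable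
  filter_upwards with θ
  exact hu.bd _ (hmem θ)

lemma BPsh.avg {Ω : Set (Fin n → ℂ)} {u : (Fin n → ℂ) → ℝ} {M : ℝ} (hu : BPsh Ω u M)
    {a b : Fin n → ℂ} {lam : ℝ} (hl : 0 < lam) (hab : ∀ ξ : ℂ, ‖ξ‖ ≤ lam → a + ξ • b ∈ Ω) :
    u a ≤ Real.circleAverage (fun ξ : ℂ => u (a + ξ • b)) 0 lam := by
  have h1 := hu.sm a ((lam : ℂ) • b) (by
    intro ζ hζ
    rw [smul_smul]
    apply hab
    rw [norm_mul, Complex.norm_real, Real.norm_of_nonneg hl.le]
    nlinarith)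
  rw [Real.circleAverage_def, smul_eq_mul]
  refine h1.trans (le_of_eq ?_)
  rw [one_div]
  congr 1
  apply intervalIntegral.integral_congr
  intro θ _
  simp only
  congr 2
  rw [smul_smul]
  congr 1
  simp [circleMap]
  ring

lemma norm_circleMap_sq (ζ₀ : ℂ) (ρ θ : ℝ) : ‖circleMap ζ₀ ρ θ‖ ^ 2 =
    ‖ζ₀‖ ^ 2 + ρ ^ 2 + (2 * ρ * ζ₀.re * Real.cos θ + 2 * ρ * ζ₀.im * Real.sin θ) := by
  rw [Complex.sq_norm, Complex.sq_norm, Complex.normSq_apply, Complex.normSq_apply]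
  have hre : (circleMap ζ₀ ρ θ).re = ζ₀.re + ρ * Real.cos θ := by
    simp [circleMap, Complex.exp_re]
  have him : (circleMap ζ₀ ρ θ).im = ζ₀.im + ρ * Real.sin θ := by
    simp [circleMap, Complex.exp_im]
  rw [hre, him]
  have := Real.sin_sq_add_cos_sq θ
  nlinarith

lemma mean_norm_sq (ζ₀ : ℂ) (ρ : ℝ) :
    Real.circleAverage (fun z : ℂ => ‖z‖ ^ 2) ζ₀ ρ = ‖ζ₀‖ ^ 2 + ρ ^ 2 := by
  rw [Real.circleAverage_def]
  simp_rw [norm_circleMap_sq]
  have i1 : ∀ c : ℝ, IntervalIntegrable (fun _ : ℝ => c) volume 0 (2 * Real.pi) :=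
    fun c => intervalIntegrable_const
  have i2 : ∀ c : ℝ, IntervalIntegrable (fun θ => c * Real.cos θ) volume 0 (2 * Real.pi) :=
    fun c => (by fun_prop : Continuous fun θ => c * Real.cos θ).intervalIntegrable _ _
  have i3 : ∀ c : ℝ, IntervalIntegrable (fun θ => c * Real.sin θ) volume 0 (2 * Real.pi) :=
    fun c => (by fun_prop : Continuous fun θ => c * Real.sin θ).intervalIntegrable _ _
  rw [intervalIntegral.integral_add (i1 _) ((i2 _).add (i3 _)),
    intervalIntegral.integral_add (i2 _) (i3 _)]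
  simp
  field_simp

/-- translated circle average -/
lemma mean_norm_sq' (ζ₀ : ℂ) (ρ : ℝ) :
    Real.circleAverage (fun ξ : ℂ => ‖ζ₀ + ξ‖ ^ 2) 0 ρ = ‖ζ₀‖ ^ 2 + ρ ^ 2 := by
  rw [← mean_norm_sq ζ₀ ρ, Real.circleAverage_def, Real.circleAverage_def]
  congr 1
  apply intervalIntegral.integral_congr
  intro θ _
  simp [circleMap]

lemma harm_re {f : ℂ → ℂ} {z : ℂ} (hf : ∀ᶠ w in 𝓝 z, DifferentiableAt ℂ f w) :
    HarmonicAt (fun z => (f z).re) z := by
  obtain ⟨r, hr, hball⟩ := Metric.eventually_nhds_iff_ball.mp hf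
  have hd : DifferentiableOn ℂ f (ball z r) := fun w hw => (hball w hw).differentiableWithinAt
  exact (hd.analyticAt (isOpen_ball.mem_nhds (mem_ball_self hr))).harmonicAt_re

/-- harmonicity is invariant under translations -/
lemma HarmonicAt.translate {h : ℂ → ℝ} {a z : ℂ} (hh : HarmonicAt h (a + z)) :
    HarmonicAt (fun ξ => h (a + ξ)) z := by
  obtain ⟨r, hr, hball⟩ := Metric.eventually_nhds_iff_ball.mp hh.eventually
  have hN : HarmonicOnNhd h (ball (a + z) r) := fun x hx => hball x hx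
  obtain ⟨F, hF, hFh⟩ := hN.exists_analyticOnNhd_ball_re_eq
  have hmem : ∀ ξ ∈ ball z r, a + ξ ∈ ball (a + z) r := by
    intro ξ hξ
    rw [mem_ball, dist_eq_norm] at hξ ⊢
    simpa using hξ
  have h1 : HarmonicAt (fun ξ => (F (a + ξ)).re) z := by
    apply harm_re
    filter_upwards [isOpen_ball.mem_nhds (mem_ball_self hr)] with ξ hξ
    have h2 : DifferentiableAt ℂ F (a + ξ) := (hF _ (hmem ξ hξ)).differentiableAt
    exact h2.comp ξ (by fun_prop)
  refine (harmonicAt_congr_nhds ?_).mp h1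
  filter_upwards [isOpen_ball.mem_nhds (mem_ball_self hr)] with ξ hξ
  exact hFh (hmem ξ hξ)

end Pool.Agent.Helper853.Fb
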