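import Pool.Agent.Helper853.Fb.Loc

open scoped Topology ENNReal ComplexConjugate ContDiff
open MeasureTheory Filter Metric InnerProductSpace

namespace Pool.Agent.Helper853.Fb

variable {n : ℕ}

/-- Euclidean norm squared -/
noncomputable def eu (x : Fin n → ℂ) : ℝ := ∑ i, ‖x i‖ ^ 2

lemma eu_nonneg (x : Fin n → ℂ) : 0 ≤ eu x := Finset.sum_nonneg fun i _ => by positivity

lemma eu_zero : eu (0 : Fin n → ℂ) = 0 := by simp [eu]

lemma eu_eq_zero {x : Fin n → ℂ} (h : eu x ≤ 0) : x = 0 := by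
  have h0 : eu x = 0 := le_antisymm h (eu_nonneg x)
  unfold eu at h0
  rw [Finset.sum_eq_zero_iff_of_nonneg (fun i _ => by positivity)] at h0
  funext i
  have := h0 i (Finset.mem_univ i)
  simpa using this

lemma continuous_eu : Continuous (eu (n := n)) := by
  unfold eu
  fun_prop

/-- A strictly superharmonic function cannot touch `u ∘ f` from above. -/
theorem no_touch {Ω : Set (Fin n → ℂ)} (hΩ : IsOpen Ω) {u : (Fin n → ℂ) → ℝ} {M : ℝ}
    (hu : BPsh Ω u M) {f : ℂ → Fin n → ℂ} {c : ℂ} (hf : ∀ᶠ ζ in 𝓝 c, DifferentiableAt ℂ f ζ)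
    (hfΩ : f c ∈ Ω) {h : ℂ → ℝ} (hh : HarmonicAt h c) {δ : ℝ} (hδ : 0 < δ)
    (hle : ∀ᶠ ζ in 𝓝 c, u (f ζ) ≤ h ζ - δ * ‖ζ‖ ^ 2) (heq : u (f c) = h c - δ * ‖c‖ ^ 2) :
    False := by
  obtain ⟨r, hr, hball⟩ := Metric.eventually_nhds_iff_ball.mp (hf.and (hh.eventually.and hle))
  obtain ⟨s, hs, hsball⟩ := Metric.isOpen_iff.mp hΩ (f c) hfΩ
  set r₁ := r / 2 with hr₁
  set s₁ := s / 2 with hs₁
  have hr₁pos : 0 < r₁ := by positivity
  have hs₁pos : 0 < s₁ := by positivity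
  have hD : ∀ ζ ∈ closedBall c r₁, DifferentiableAt ℂ f ζ ∧ HarmonicAt h ζ ∧
      u (f ζ) ≤ h ζ - δ * ‖ζ‖ ^ 2 := fun ζ hζ => hball ζ (closedBall_subset_ball (by linarith) hζ)
  have hB : closedBall (f c) s₁ ⊆ Ω := (closedBall_subset_ball (by linarith)).trans hsball
  set K : Set (ℂ × (Fin n → ℂ)) := closedBall c r₁ ×ˢ closedBall (f c) s₁ with hK
  have hKc : IsCompact K := (isCompact_closedBall _ _).prod (isCompact_closedBall _ _)
  set Ψ : ℂ × (Fin n → ℂ) → ℝ := fun p =>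
    u p.2 + (-(h p.1) + δ * ‖p.1‖ ^ 2 - (δ / 2) * ‖p.1 - c‖ ^ 2) with hΨ
  set Φ : ℕ → ℂ × (Fin n → ℂ) → ℝ := fun N p => u p.2 + (-(h p.1) + δ * ‖p.1‖ ^ 2 -
    (δ / 2) * ‖p.1 - c‖ ^ 2 - N * eu (p.2 - f p.1)) with hΦ
  have hfc : ContinuousOn (fun p : ℂ × (Fin n → ℂ) => f p.1) K := by
    have h1 : ContinuousOn f (closedBall c r₁) := fun ζ hζ =>
      (hD ζ hζ).1.continuousAt.continuousWithinAt
    exact h1.comp continuousOn_fst fun p hp => hp.1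
  have hhc : ContinuousOn (fun p : ℂ × (Fin n → ℂ) => h p.1) K := by
    have h1 : ContinuousOn h (closedBall c r₁) := fun ζ hζ =>
      (hD ζ hζ).2.1.1.continuousAt.continuousWithinAt
    exact h1.comp continuousOn_fst fun p hp => hp.1
  have hΦusc : ∀ N, UpperSemicontinuousOn (Φ N) K := by
    intro N
    apply UpperSemicontinuousOn.add
    · exact UpperSemicontinuousOn.comp (s := Ω) (g := fun p : ℂ × (Fin n → ℂ) => p.2) hu.usc
        continuousOn_snd (fun p hp => hB hp.2)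
    · apply ContinuousOn.upperSemicontinuousOn
      have h3 : ContinuousOn (fun p : ℂ × (Fin n → ℂ) => eu (p.2 - f p.1)) K :=
        continuous_eu.comp_continuousOn (continuousOn_snd.sub hfc)
      exact ((hhc.neg.add (by fun_prop)).sub (by fun_prop)).sub (continuousOn_const.mul h3)
  set A : Set (ℂ × (Fin n → ℂ)) := K ∩ {p | r₁ / 2 ≤ ‖p.1 - c‖ ∨ s₁ / 2 ≤ ‖p.2 - f c‖} with hA
  have hAc : IsCompact A := by
    apply hKc.inter_right
    apply IsClosed.union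
    · exact isClosed_le (f := fun _ : ℂ × (Fin n → ℂ) => r₁ / 2)
        (g := fun p : ℂ × (Fin n → ℂ) => ‖p.1 - c‖) continuous_const (by fun_prop)
    · exact isClosed_le (f := fun _ : ℂ × (Fin n → ℂ) => s₁ / 2)
        (g := fun p : ℂ × (Fin n → ℂ) => ‖p.2 - f c‖) continuous_const (by fun_prop)
  have hN : ∃ N : ℕ, ∀ p ∈ A, Φ N p < 0 := by
    by_contra hcon
    push Not at hcon
    set S : ℕ → Set (ℂ × (Fin n → ℂ)) := fun N => A ∩ Φ N ⁻¹' Set.Ici 0 with hS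
    have hScomp : ∀ N, IsCompact (S N) := fun N =>
      ((hΦusc N).mono Set.inter_subset_left).isCompact_inter_preimage_Ici hAc 0
    obtain ⟨p, hp⟩ := IsCompact.nonempty_iInter_of_sequence_nonempty_isCompact_isClosed S
      (by
        rintro N p ⟨hpA, hp⟩
        refine ⟨hpA, ?_⟩
        have h1 : 0 ≤ Φ (N + 1) p := hp
        change 0 ≤ Φ N p
        simp only [hΦ] at h1 ⊢
        push_cast at h1
        have := eu_nonneg (p.2 - f p.1)
        linarith)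
      (by
        intro N
        obtain ⟨p, hpA, hp⟩ := hcon N
        exact ⟨p, hpA, hp⟩) (hScomp 0) (fun N => (hScomp N).isClosed)
    have hp' : ∀ N : ℕ, p ∈ A ∧ 0 ≤ Φ N p := fun N => by
      have := Set.mem_iInter.mp hp N
      exact this
    have hpA := (hp' 0).1
    have h1 : ∀ N : ℕ, (N : ℝ) * eu (p.2 - f p.1) ≤ Ψ p := by
      intro N
      have := (hp' N).2
      simp only [hΦ] at this
      simp only [hΨ]
      linarith
    have h2 : eu (p.2 - f p.1) ≤ 0 := by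
      by_contra hpos
      push Not at hpos
      obtain ⟨N, hN⟩ := exists_nat_gt (Ψ p / eu (p.2 - f p.1))
      rw [div_lt_iff₀ hpos] at hN
      linarith [h1 N]
    have h3 : p.2 = f p.1 := sub_eq_zero.mp (eu_eq_zero h2)
    have h4 := h1 0
    rw [Nat.cast_zero, zero_mul] at h4
    simp only [hΨ] at h4
    rw [h3] at h4
    have h5 := (hD p.1 hpA.1.1).2.2
    have h6 : ‖p.1 - c‖ ^ 2 ≤ 0 := by
      have : (δ / 2) * ‖p.1 - c‖ ^ 2 ≤ 0 := by linarith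
      nlinarith [sq_nonneg ‖p.1 - c‖]
    have h7 : p.1 = c := by
      have : ‖p.1 - c‖ = 0 := by
        have := sq_nonneg ‖p.1 - c‖
        nlinarith [norm_nonneg (p.1 - c)]
      exact sub_eq_zero.mp (norm_eq_zero.mp this)
    rcases hpA.2 with h8 | h8
    · rw [h7, sub_self, norm_zero] at h8
      linarith
    · rw [h3, h7, sub_self, norm_zero] at h8
      linarith
  obtain ⟨N, hN⟩ := hN
  have hcK : (c, f c) ∈ K := ⟨mem_closedBall_self hr₁pos.le, mem_closedBall_self hs₁pos.le⟩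
  obtain ⟨p₁, hp₁, hmax⟩ := UpperSemicontinuousOn.exists_isMaxOn ⟨_, hcK⟩ hKc (hΦusc N)
  have hΦc : Φ N (c, f c) = 0 := by
    simp only [hΦ, sub_self, norm_zero, eu_zero]
    rw [heq]
    ring
  have hΦ₁ : 0 ≤ Φ N p₁ := by
    rw [← hΦc]
    exact hmax hcK
  have hp₁A : p₁ ∉ A := fun h => by
    have := hN p₁ h
    linarith
  have hint : ‖p₁.1 - c‖ < r₁ / 2 ∧ ‖p₁.2 - f c‖ < s₁ / 2 := by
    constructor
    · by_contra h
      push Not at h
      exact hp₁A ⟨hp₁, Or.inl h⟩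
    · by_contra h
      push Not at h
      exact hp₁A ⟨hp₁, Or.inr h⟩
  obtain ⟨ζ₁, x₁⟩ := p₁
  simp only at hint
  set b := deriv f ζ₁ with hb
  have hζ₁D : ζ₁ ∈ closedBall c r₁ := hp₁.1
  set ε : ℝ := Real.sqrt (δ / (4 * (n * N + 1))) with hε
  have hε2 : ε ^ 2 = δ / (4 * (n * N + 1)) := Real.sq_sqrt (by positivity)
  have hεpos : 0 < ε := Real.sqrt_pos.mpr (by positivity)
  have hlit : ∀ᶠ ξ in 𝓝 (0 : ℂ), ‖f (ζ₁ + ξ) - f ζ₁ - ξ • b‖ ≤ ε * ‖ξ‖ := by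
    have h1 := (hD ζ₁ hζ₁D).1.hasDerivAt
    rw [hasDerivAt_iff_isLittleO_nhds_zero] at h1
    exact h1.def hεpos
  obtain ⟨l₀, hl₀, hl₀'⟩ := Metric.eventually_nhds_iff_ball.mp hlit
  obtain ⟨lam, hlam, hlam1, hlam2, hlam3⟩ : ∃ lam : ℝ, 0 < lam ∧ lam < l₀ ∧ lam ≤ r₁ / 2 ∧
      lam * ‖b‖ ≤ s₁ / 2 := by
    refine ⟨min (l₀ / 2) (min (r₁ / 2) (s₁ / 2 / (‖b‖ + 1))), by positivity, ?_, ?_, ?_⟩
    · exact (min_le_left _ _).trans_lt (by linarith)
    · exact (min_le_right _ _).trans (min_le_left _ _)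
    · have h1 : min (l₀ / 2) (min (r₁ / 2) (s₁ / 2 / (‖b‖ + 1))) ≤ s₁ / 2 / (‖b‖ + 1) :=
        (min_le_right _ _).trans (min_le_right _ _)
      calc _ ≤ s₁ / 2 / (‖b‖ + 1) * ‖b‖ := by gcongr
        _ = s₁ / 2 * (‖b‖ / (‖b‖ + 1)) := by ring
        _ ≤ s₁ / 2 * 1 := by
          gcongr
          rw [div_le_one (by positivity)]
          linarith
        _ = s₁ / 2 := mul_one _
  have hin1 : ∀ ξ : ℂ, ‖ξ‖ ≤ lam → ζ₁ + ξ ∈ closedBall c r₁ := by
    intro ξ hξ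
    rw [mem_closedBall, dist_eq_norm]
    have : ζ₁ + ξ - c = (ζ₁ - c) + ξ := by ring
    rw [this]
    refine (norm_add_le _ _).trans ?_
    linarith [hint.1]
  have hin2 : ∀ ξ : ℂ, ‖ξ‖ ≤ lam → x₁ + ξ • b ∈ closedBall (f c) s₁ := by
    intro ξ hξ
    rw [mem_closedBall, dist_eq_norm]
    have : x₁ + ξ • b - f c = (x₁ - f c) + ξ • b := by abel
    rw [this]
    refine (norm_add_le _ _).trans ?_
    have h1 : ‖ξ • b‖ ≤ s₁ / 2 := by
      rw [norm_smul]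
      exact (mul_le_mul_of_nonneg_right hξ (norm_nonneg b)).trans hlam3
    linarith [hint.2]
  set p0 : Fin n → ℂ := x₁ - f ζ₁ with hp0
  set e : ℂ → Fin n → ℂ := fun ξ => f (ζ₁ + ξ) - f ζ₁ - ξ • b with he
  set Hm : ℂ → ℝ := fun ξ => h (ζ₁ + ξ) + (∑ i, (-(2 * N : ℂ)) * (conj (p0 i) * e ξ i)).re with hHm
  set C0 : ℝ := u x₁ - h ζ₁ + δ * ‖ζ₁‖ ^ 2 - (δ / 2) * ‖ζ₁ - c‖ ^ 2 + (δ / 4) * lam ^ 2 with hC0
  set G : ℂ → ℝ := fun ξ => C0 + (Hm ξ + ((-δ) * ‖ζ₁ + ξ‖ ^ 2 + (δ / 2) * ‖(ζ₁ - c) + ξ‖ ^ 2)) with hG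
  have hHmharm : HarmonicOnNhd Hm (closedBall 0 |lam|) := by
    intro ξ hξ
    rw [abs_of_pos hlam, mem_closedBall_zero_iff] at hξ
    have h1 : HarmonicAt (fun ξ => h (ζ₁ + ξ)) ξ :=
      HarmonicAt.translate (hD _ (hin1 ξ hξ)).2.1
    have h2 : HarmonicAt (fun ξ => (∑ i, (-(2 * N : ℂ)) * (conj (p0 i) * e ξ i)).re) ξ := by
      apply harm_re
      have hev : ∀ᶠ w in 𝓝 ξ, DifferentiableAt ℂ f (ζ₁ + w) := by
        have h3 : ContinuousAt (fun w : ℂ => ζ₁ + w) ξ := by fun_prop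
        have h4 : ∀ᶠ z in 𝓝 (ζ₁ + ξ), DifferentiableAt ℂ f z := by
          have h5 : ζ₁ + ξ ∈ ball c r := closedBall_subset_ball (by linarith) (hin1 ξ hξ)
          filter_upwards [isOpen_ball.mem_nhds h5] with z hz
          exact (hball z hz).1
        exact h3.eventually h4
      filter_upwards [hev] with w hw
      have h6 : DifferentiableAt ℂ (fun ξ => f (ζ₁ + ξ)) w := hw.comp w (by fun_prop)
      have h7 : DifferentiableAt ℂ e w := (h6.sub_const _).sub (by fun_prop)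
      have h8 : ∀ i, DifferentiableAt ℂ (fun ξ => e ξ i) w := fun i =>
        differentiableAt_pi.mp h7 i
      exact DifferentiableAt.fun_sum fun i _ => ((h8 i).const_mul _).const_mul _
    exact h1.add h2
  have hHmavg : Real.circleAverage Hm 0 lam = h ζ₁ := by
    rw [hHmharm.circleAverage_eq]
    simp [hHm, he]
  have hHmc : CircleIntegrable Hm 0 lam := by
    apply ContinuousOn.circleIntegrable hlam.le
    intro ξ hξ
    exact (hHmharm ξ (by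
      rw [abs_of_pos hlam]
      exact sphere_subset_closedBall hξ)).1.continuousAt.continuousWithinAt
  have hq1 : CircleIntegrable (fun ξ : ℂ => (-δ) * ‖ζ₁ + ξ‖ ^ 2) 0 lam :=
    (by fun_prop : Continuous fun ξ : ℂ => (-δ) * ‖ζ₁ + ξ‖ ^ 2).continuousOn.circleIntegrable hlam.le
  have hq2 : CircleIntegrable (fun ξ : ℂ => (δ / 2) * ‖(ζ₁ - c) + ξ‖ ^ 2) 0 lam :=
    (by fun_prop : Continuous fun ξ : ℂ =>
      (δ / 2) * ‖(ζ₁ - c) + ξ‖ ^ 2).continuousOn.circleIntegrable hlam.le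
  have hq0 : CircleIntegrable (fun _ : ℂ => C0) 0 lam := circleIntegrable_const C0 0 lam
  have hq12 : CircleIntegrable (fun ξ : ℂ => (-δ) * ‖ζ₁ + ξ‖ ^ 2 + (δ / 2) * ‖(ζ₁ - c) + ξ‖ ^ 2)
      0 lam := hq1.add hq2
  have hq3 : CircleIntegrable (fun ξ : ℂ => Hm ξ + ((-δ) * ‖ζ₁ + ξ‖ ^ 2 +
      (δ / 2) * ‖(ζ₁ - c) + ξ‖ ^ 2)) 0 lam := hHmc.add hq12
  have hGi : CircleIntegrable G 0 lam := hq0.add hq3
  have hGavg : Real.circleAverage G 0 lam = C0 + (h ζ₁ + ((-δ) * (‖ζ₁‖ ^ 2 + lam ^ 2) +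
      (δ / 2) * (‖ζ₁ - c‖ ^ 2 + lam ^ 2))) := by
    simp only [hG]
    rw [Real.circleAverage_fun_add hq0 hq3, Real.circleAverage_const,
      Real.circleAverage_fun_add hHmc hq12, hHmavg, Real.circleAverage_fun_add hq1 hq2]
    have a1 : Real.circleAverage (fun ξ : ℂ => (-δ) * ‖ζ₁ + ξ‖ ^ 2) 0 lam =
        (-δ) * (‖ζ₁‖ ^ 2 + lam ^ 2) := by
      rw [← mean_norm_sq' ζ₁ lam]
      exact Real.circleAverage_fun_smul (a := -δ)
    have a2 : Real.circleAverage (fun ξ : ℂ => (δ / 2) * ‖(ζ₁ - c) + ξ‖ ^ 2) 0 lam =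
        (δ / 2) * (‖ζ₁ - c‖ ^ 2 + lam ^ 2) := by
      rw [← mean_norm_sq' (ζ₁ - c) lam]
      exact Real.circleAverage_fun_smul (a := δ / 2)
    rw [a1, a2]
  have huc : CircleIntegrable (fun ξ : ℂ => u (x₁ + ξ • b)) 0 lam :=
    hu.circ hlam fun ξ hξ => hB (hin2 ξ hξ)
  have hua := hu.avg hlam (a := x₁) (b := b) fun ξ hξ => hB (hin2 ξ hξ)
  have hpt : ∀ ξ ∈ sphere (0 : ℂ) |lam|, u (x₁ + ξ • b) ≤ G ξ := by
    intro ξ hξ
    rw [abs_of_pos hlam, mem_sphere_zero_iff_norm] at hξ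
    have h1 : Φ N (ζ₁ + ξ, x₁ + ξ • b) ≤ Φ N (ζ₁, x₁) := hmax ⟨hin1 ξ hξ.le, hin2 ξ hξ.le⟩
    simp only [hΦ] at h1
    have e1 : x₁ + ξ • b - f (ζ₁ + ξ) = p0 - e ξ := by
      simp only [hp0, he]
      abel
    rw [e1] at h1
    have h2 : ‖e ξ‖ ≤ ε * lam := by
      have := hl₀' ξ (by rw [mem_ball_zero_iff, hξ]; exact hlam1)
      rwa [hξ] at this
    have h3 : eu (p0 - e ξ) ≤ eu p0 - 2 * (∑ i, conj (p0 i) * e ξ i).re + n * (ε * lam) ^ 2 := by
      unfold eu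
      rw [Complex.re_sum, Finset.mul_sum, ← Finset.sum_sub_distrib]
      have h4 : (n : ℝ) * (ε * lam) ^ 2 = ∑ _i : Fin n, (ε * lam) ^ 2 := by simp
      rw [h4, ← Finset.sum_add_distrib]
      apply Finset.sum_le_sum
      intro i _
      have h5 : ‖(p0 - e ξ) i‖ ^ 2 = ‖p0 i‖ ^ 2 - 2 * (conj (p0 i) * e ξ i).re + ‖e ξ i‖ ^ 2 := by
        rw [Pi.sub_apply, Complex.sq_norm, Complex.sq_norm, Complex.sq_norm,
          Complex.normSq_apply, Complex.normSq_apply, Complex.normSq_apply]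
        simp
        ring
      rw [h5]
      have h6 : ‖e ξ i‖ ≤ ε * lam := (norm_le_pi_norm (e ξ) i).trans h2
      have h7 : ‖e ξ i‖ ^ 2 ≤ (ε * lam) ^ 2 := by gcongr
      linarith
    have h8 : (∑ i, (-(2 * N : ℂ)) * (conj (p0 i) * e ξ i)).re =
        -(2 * N) * (∑ i, conj (p0 i) * e ξ i).re := by
      rw [← Finset.mul_sum]
      simp
    have h9 : (N : ℝ) * (n * (ε * lam) ^ 2) ≤ (δ / 4) * lam ^ 2 := by
      have e2 : (N : ℝ) * (n * (ε * lam) ^ 2) = (n * N) * ε ^ 2 * lam ^ 2 := by ring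
      rw [e2, hε2]
      have h10 : (n * N : ℝ) * (δ / (4 * (n * N + 1))) ≤ δ / 4 := by
        have h12 : (n * N : ℝ) * (δ / (4 * (n * N + 1))) = δ / 4 * ((n * N) / (n * N + 1)) := by
          field_simp
        rw [h12]
        have h13 : ((n * N : ℝ) / (n * N + 1)) ≤ 1 := by
          rw [div_le_one (by positivity)]
          linarith
        calc δ / 4 * ((n * N : ℝ) / (n * N + 1)) ≤ δ / 4 * 1 := by gcongr
          _ = δ / 4 := mul_one _
      exact mul_le_mul_of_nonneg_right h10 (by positivity)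
    have h11 : (N : ℝ) * eu (p0 - e ξ) ≤
        N * (eu p0 - 2 * (∑ i, conj (p0 i) * e ξ i).re + n * (ε * lam) ^ 2) := by gcongr
    have e3 : ζ₁ + ξ - c = (ζ₁ - c) + ξ := by ring
    rw [e3] at h1
    simp only [hG, hHm, hC0]
    rw [h8]
    have h14 : (N : ℝ) * (eu p0 - 2 * (∑ i, conj (p0 i) * e ξ i).re + n * (ε * lam) ^ 2) =
        N * eu p0 - 2 * N * (∑ i, conj (p0 i) * e ξ i).re + N * (n * (ε * lam) ^ 2) := by ring
    rw [h14] at h11
    have h15 : -(2 * (N : ℝ)) * (∑ i, conj (p0 i) * e ξ i).re =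
        -(2 * N * (∑ i, conj (p0 i) * e ξ i).re) := by ring
    rw [h15]
    linarith
  have hfin := Real.circleAverage_mono huc hGi hpt
  rw [hGavg, hC0] at hfin
  have h16 : 0 < δ / 4 * lam ^ 2 := by positivity
  have h17 : (-δ) * (‖ζ₁‖ ^ 2 + lam ^ 2) = -(δ * ‖ζ₁‖ ^ 2) - δ * lam ^ 2 := by ring
  have h18 : (δ / 2) * (‖ζ₁ - c‖ ^ 2 + lam ^ 2) = (δ / 2) * ‖ζ₁ - c‖ ^ 2 + δ / 2 * lam ^ 2 := by
    ring
  have h19 : δ / 4 * lam ^ 2 = (δ * lam ^ 2) / 4 := by ring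
  have h20 : δ / 2 * lam ^ 2 = (δ * lam ^ 2) / 2 := by ring
  rw [h17, h18] at hfin
  linarith

end Pool.Agent.Helper853.Fb
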