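import Pool.Agent.Helper853.Fb.Liou

open scoped Topology ENNReal Pointwise
open MeasureTheory Filter Metric

namespace Pool.Agent.Helper853.Fb

/-- area of the set where a power is close to a constant -/
lemma area_pow_le {m : ℕ} (hm : 0 < m) {T : ℂ} (hT : T ≠ 0) {K r : ℝ} (hK : K ≤ ‖T‖ / 2)
    (hr0 : 0 ≤ r) (hr : r ^ m = ‖T‖) :
    volume {z : ℂ | ‖z ^ m - T‖ ≤ K} ≤
      m * (ENNReal.ofReal (3 * K * r / ‖T‖) ^ 2 * NNReal.pi) := by
  classical
  have hT0 : 0 < ‖T‖ := norm_pos_iff.mpr hT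
  have hm' : (m : ℂ) ≠ 0 := Nat.cast_ne_zero.mpr hm.ne'
  have hm1 : (1 : ℝ) ≤ m := by exact_mod_cast hm
  set S : Finset ℂ := (Polynomial.nthRoots m T).toFinset with hS
  have hcard : (S.card : ℝ≥0∞) ≤ m := by
    have h1 : S.card ≤ m := (Multiset.toFinset_card_le _).trans (Polynomial.card_nthRoots m T)
    exact_mod_cast h1
  have hsub : {z : ℂ | ‖z ^ m - T‖ ≤ K} ⊆ ⋃ ζ ∈ S, closedBall ζ (3 * K * r / ‖T‖) := by
    intro z hz
    have hz' : ‖z ^ m - T‖ ≤ K := hz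
    set e : ℂ := (z ^ m - T) / T with he
    have hen : ‖e‖ ≤ K / ‖T‖ := by
      rw [he, norm_div]
      gcongr
    have he2 : ‖e‖ ≤ 1 / 2 := by
      refine hen.trans ?_
      rw [div_le_iff₀ hT0]
      linarith
    have h1e : 1 + e = z ^ m / T := by
      rw [he]
      field_simp
      ring
    have h1e0 : 1 + e ≠ 0 := by
      intro h0
      have : e = -1 := by linear_combination h0
      rw [this] at he2
      norm_num at he2
    set L := Complex.log (1 + e) with hL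
    have hexpL : Complex.exp L = z ^ m / T := by rw [hL, Complex.exp_log h1e0, h1e]
    have hLn : ‖L‖ ≤ 3 / 2 * ‖e‖ := Complex.norm_log_one_add_half_le_self he2
    set ζ := z * Complex.exp (-(L / m)) with hζ
    have hzm0 : z ^ m ≠ 0 := by
      intro h0
      rw [h1e, h0, zero_div] at h1e0
      exact h1e0 rfl
    have hζm : ζ ^ m = T := by
      rw [hζ, mul_pow, ← Complex.exp_nat_mul]
      have : (m : ℂ) * -(L / m) = -L := by
        field_simp
      rw [this, Complex.exp_neg, hexpL]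
      field_simp
    have hzζ : z = ζ * Complex.exp (L / m) := by
      rw [hζ, mul_assoc, ← Complex.exp_add]
      simp
    have hζn : ‖ζ‖ = r := by
      have : ‖ζ‖ ^ m = r ^ m := by rw [← norm_pow, hζm, hr]
      exact (pow_left_inj₀ (norm_nonneg _) hr0 hm.ne').mp this
    simp only [Set.mem_iUnion]
    refine ⟨ζ, ?_, ?_⟩
    · rw [hS, Multiset.mem_toFinset, Polynomial.mem_nthRoots hm]
      exact hζm
    · rw [mem_closedBall, dist_eq_norm]
      have hLm : ‖L / m‖ ≤ ‖L‖ := by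
        rw [norm_div, Complex.norm_natCast]
        exact div_le_self (norm_nonneg _) hm1
      have hLm1 : ‖L / m‖ ≤ 1 := by linarith
      have : z - ζ = ζ * (Complex.exp (L / m) - 1) := by
        rw [mul_sub, mul_one, ← hzζ]
      rw [this, norm_mul, hζn]
      calc r * ‖Complex.exp (L / m) - 1‖ ≤ r * (2 * ‖L / m‖) := by
            gcongr
            exact Complex.norm_exp_sub_one_le hLm1
        _ ≤ r * (2 * (3 / 2 * (K / ‖T‖))) := by
            gcongr
            exact hLm.trans (hLn.trans (by gcongr))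
        _ = 3 * K * r / ‖T‖ := by ring
  calc volume {z : ℂ | ‖z ^ m - T‖ ≤ K} ≤ volume (⋃ ζ ∈ S, closedBall ζ (3 * K * r / ‖T‖)) :=
        measure_mono hsub
    _ ≤ ∑ ζ ∈ S, volume (closedBall ζ (3 * K * r / ‖T‖)) := measure_biUnion_finset_le _ _
    _ = S.card * (ENNReal.ofReal (3 * K * r / ‖T‖) ^ 2 * NNReal.pi) := by
        simp_rw [Complex.volume_closedBall]
        rw [Finset.sum_const, nsmul_eq_mul]
    _ ≤ m * (ENNReal.ofReal (3 * K * r / ‖T‖) ^ 2 * NNReal.pi) := by gcongr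

/-- area of the slices of the basin -/
lemma slice_big {t : ℂ} (ht : 4096 ≤ ‖t‖) {k : ℕ} (hk : (64 : ℝ) ^ k ≤ ‖t‖) :
    volume {z : ℂ | (z, t) ∈ Ub} ≤
      8 * (ENNReal.ofReal (144 * (1 / 512) ^ k) * NNReal.pi) := by
  set r : ℝ := ‖t‖ ^ ((1 : ℝ) / 8) with hr
  have hr0 : 0 ≤ r := by positivity
  have hr8 : r ^ 8 = ‖t‖ := by
    rw [hr, ← Real.rpow_natCast, ← Real.rpow_mul (norm_nonneg _)]
    norm_num
  have hr2 : 2 ≤ r := by
    by_contra hlt
    push Not at hlt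
    have : r ^ 8 < 2 ^ 8 := by gcongr
    rw [hr8] at this
    linarith
  set r' : ℝ := ‖t / 2‖ ^ ((1 : ℝ) / 8) with hr'
  have hr'0 : 0 ≤ r' := by positivity
  have hr'8 : r' ^ 8 = ‖t / 2‖ := by
    rw [hr', ← Real.rpow_natCast, ← Real.rpow_mul (norm_nonneg _)]
    norm_num
  have ht2 : ‖t / 2‖ = ‖t‖ / 2 := by simp
  have hr'r : r' ≤ r := by
    rw [hr', hr, ht2]
    gcongr
    linarith [norm_nonneg t]
  have hsub : {z : ℂ | (z, t) ∈ Ub} ⊆ {z : ℂ | ‖z ^ 8 - t / 2‖ ≤ 2 * r} := by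
    intro z hz
    have h1 : ‖z ^ 8 - t / 2‖ < max 2 (‖z‖ / 2) := Ub_lt' (q := (z, t)) hz
    have h2 : ‖z‖ ≤ 2 * r := by
      by_contra hgt
      push Not at hgt
      have h3 : ‖z‖ ^ 8 ≤ ‖t‖ / 2 + max 2 (‖z‖ / 2) := by
        have h4 := norm_sub_norm_le (z ^ 8) (t / 2)
        rw [norm_pow, ht2] at h4
        linarith
      have h5 : (4 : ℝ) ≤ ‖z‖ := by linarith
      have h6 : max 2 (‖z‖ / 2) ≤ ‖z‖ := max_le (by linarith) (by linarith)
      have h7 : (2 * r) ^ 8 ≤ ‖z‖ ^ 8 := by gcongr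
      have h8 : (2 * r) ^ 8 = 256 * ‖t‖ := by
        rw [mul_pow, hr8]
        norm_num
      have h9 : 4 ^ 7 * ‖z‖ ≤ ‖z‖ ^ 8 := by
        calc 4 ^ 7 * ‖z‖ ≤ ‖z‖ ^ 7 * ‖z‖ := by gcongr
          _ = ‖z‖ ^ 8 := by ring
      have h10 := norm_nonneg t
      nlinarith
    show ‖z ^ 8 - t / 2‖ ≤ 2 * r
    refine h1.le.trans (max_le (by linarith) ?_)
    linarith
  have ht0 : t / 2 ≠ 0 := by
    rw [← norm_pos_iff, ht2]
    linarith
  have hpos : 0 < ‖t‖ := by linarith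
  have hrpos : 0 < r := by linarith
  have h1 := area_pow_le (m := 8) (by norm_num) ht0 (K := 2 * r) (r := r') (by
    rw [ht2, ← hr8]
    have : (2 : ℝ) ^ 7 ≤ r ^ 7 := by gcongr
    have h2 : r ^ 8 = r ^ 7 * r := by ring
    rw [h2]
    nlinarith) hr'0 hr'8
  refine (measure_mono hsub).trans (h1.trans ?_)
  have h2 : (3 * (2 * r) * r' / ‖t / 2‖) ^ 2 ≤ 144 * (1 / 512) ^ k := by
    have h3 : 3 * (2 * r) * r' / ‖t / 2‖ ≤ 12 / r ^ 6 := by
      rw [ht2, ← hr8]
      rw [div_le_div_iff₀ (by positivity) (by positivity)]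
      calc 3 * (2 * r) * r' * r ^ 6 ≤ 3 * (2 * r) * r * r ^ 6 := by gcongr
        _ = 12 * (r ^ 8 / 2) := by ring
    have h4 : (512 : ℝ) ^ k ≤ r ^ 12 := by
      have h5 : ((512 : ℝ) ^ k) ^ 2 ≤ (r ^ 12) ^ 2 := by
        calc ((512 : ℝ) ^ k) ^ 2 = (64 ^ k) ^ 3 := by
              rw [← pow_mul, ← pow_mul, mul_comm k 2, mul_comm k 3, pow_mul, pow_mul]
              norm_num
          _ ≤ (r ^ 8) ^ 3 := by
            rw [hr8]
            gcongr
          _ = (r ^ 12) ^ 2 := by ring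
      exact (pow_le_pow_iff_left₀ (by positivity) (by positivity) (by norm_num)).mp h5
    calc (3 * (2 * r) * r' / ‖t / 2‖) ^ 2 ≤ (12 / r ^ 6) ^ 2 := by gcongr
      _ = 144 * (1 / r ^ 12) := by
        field_simp
        ring
      _ ≤ 144 * (1 / 512 ^ k) := by gcongr
      _ = 144 * (1 / 512) ^ k := by rw [one_div_pow]
  rw [← ENNReal.ofReal_pow (by positivity)]
  push_cast
  gcongr

lemma slice_small {t : ℂ} {R : ℝ} (hR : 2 ≤ R) (ht : ‖t‖ ≤ R) :
    volume {z : ℂ | (z, t) ∈ Ub} ≤ ENNReal.ofReal R ^ 2 * NNReal.pi := by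
  rw [← Complex.volume_closedBall 0 R]
  apply measure_mono
  intro z hz
  rw [mem_closedBall_zero_iff]
  have : ‖z‖ < max 2 ‖t‖ := Ub_lt (q := (z, t)) hz
  exact this.le.trans (max_le hR ht)

end Pool.Agent.Helper853.Fb
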