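import Pool.Agent.Helper853.Fb.Vol

open scoped Topology ENNReal Pointwise
open MeasureTheory Filter Metric

namespace Pool.Agent.Helper853.Fb

/-- sublevel sets of the cubic -/
def Qs (s : ℝ) : Set (ℂ × ℂ) := {p | ‖p.1 ^ 3 + p.2 ^ 3‖ ≤ s}

lemma isClosed_Qs (s : ℝ) : IsClosed (Qs s) :=
  isClosed_le (by fun_prop) continuous_const

lemma slice_cubic (y : ℂ) : volume {x : ℂ | ‖x ^ 3 + y ^ 3‖ ≤ 1} ≤
    (1000 * NNReal.pi) * ENNReal.ofReal ((1 + ‖y‖) ^ (-4 : ℝ)) := by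
  have hy0 := norm_nonneg y
  have e4 : (1 + ‖y‖) ^ (-4 : ℝ) = 1 / (1 + ‖y‖) ^ 4 := by
    rw [Real.rpow_neg (by positivity), one_div]
    norm_cast
  rcases le_or_gt 2 ‖y‖ with hy | hy
  · have hpos : 0 < ‖y‖ := by linarith
    have hT : -y ^ 3 ≠ 0 := by
      rw [neg_ne_zero]
      exact pow_ne_zero 3 (norm_pos_iff.mp hpos)
    have hTn : ‖-y ^ 3‖ = ‖y‖ ^ 3 := by rw [norm_neg, norm_pow]
    have h1 := area_pow_le (m := 3) (by norm_num) hT (K := 1) (r := ‖y‖) (by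
      rw [hTn]
      have : (2 : ℝ) ^ 3 ≤ ‖y‖ ^ 3 := by gcongr
      linarith) hy0 hTn.symm
    simp only [sub_neg_eq_add] at h1
    refine h1.trans ?_
    rw [hTn, e4]
    have h2 : (3 * 1 * ‖y‖ / ‖y‖ ^ 3) ^ 2 ≤ 144 * (1 / (1 + ‖y‖) ^ 4) := by
      have h3 : 1 + ‖y‖ ≤ 2 * ‖y‖ := by linarith
      have h4 : (1 + ‖y‖) ^ 4 ≤ (2 * ‖y‖) ^ 4 := by gcongr
      calc (3 * 1 * ‖y‖ / ‖y‖ ^ 3) ^ 2 = 144 * (1 / (2 * ‖y‖) ^ 4) := by
            field_simp
            ring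
        _ ≤ 144 * (1 / (1 + ‖y‖) ^ 4) := by gcongr
    rw [← ENNReal.ofReal_pow (by positivity)]
    calc ((3 : ℕ) : ℝ≥0∞) * (ENNReal.ofReal ((3 * 1 * ‖y‖ / ‖y‖ ^ 3) ^ 2) * NNReal.pi) ≤
        3 * (ENNReal.ofReal (144 * (1 / (1 + ‖y‖) ^ 4)) * NNReal.pi) := by
          push_cast
          gcongr
      _ = (3 * ENNReal.ofReal 144 * NNReal.pi) * ENNReal.ofReal (1 / (1 + ‖y‖) ^ 4) := by
          rw [ENNReal.ofReal_mul (by norm_num)]
          ring
      _ ≤ (1000 * NNReal.pi) * ENNReal.ofReal (1 / (1 + ‖y‖) ^ 4) := by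
          gcongr
          norm_num
  · have h1 : {x : ℂ | ‖x ^ 3 + y ^ 3‖ ≤ 1} ⊆ closedBall 0 3 := by
      intro x hx
      rw [mem_closedBall_zero_iff]
      by_contra hlt
      push Not at hlt
      have h2 : ‖x ^ 3 + y ^ 3‖ ≤ 1 := hx
      have h3 := norm_sub_norm_le (x ^ 3) (-y ^ 3)
      rw [norm_neg, norm_pow, norm_pow, sub_neg_eq_add] at h3
      have h4 : (3 : ℝ) ^ 3 ≤ ‖x‖ ^ 3 := by gcongr
      have h5 : ‖y‖ ^ 3 ≤ 2 ^ 3 := by gcongr
      linarith
    refine (measure_mono h1).trans ?_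
    rw [Complex.volume_closedBall, e4]
    have h6 : (1 / 81 : ℝ) ≤ 1 / (1 + ‖y‖) ^ 4 := by
      have : (1 + ‖y‖) ^ 4 ≤ 3 ^ 4 := by
        gcongr
        linarith
      have h7 : (1 / 81 : ℝ) = 1 / 3 ^ 4 := by norm_num
      rw [h7]
      gcongr
    calc ENNReal.ofReal 3 ^ 2 * NNReal.pi = ENNReal.ofReal 9 * NNReal.pi := by
          rw [← ENNReal.ofReal_pow (by norm_num)]
          norm_num
      _ ≤ ENNReal.ofReal (1000 * (1 / 81)) * NNReal.pi := by
          gcongr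
          norm_num
      _ = (1000 * NNReal.pi) * ENNReal.ofReal (1 / 81) := by
          rw [ENNReal.ofReal_mul (by norm_num)]
          have : ENNReal.ofReal 1000 = 1000 := by norm_num
          rw [this]
          ring
      _ ≤ (1000 * NNReal.pi) * ENNReal.ofReal (1 / (1 + ‖y‖) ^ 4) := by gcongr

lemma vol_Q1 : volume (Qs 1) < ∞ := by
  rw [Measure.volume_eq_prod, Measure.prod_apply_symm (isClosed_Qs 1).measurableSet]
  have h1 : ∀ y : ℂ, volume ((fun x : ℂ => (x, y)) ⁻¹' Qs 1) ≤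
      (1000 * NNReal.pi) * ENNReal.ofReal ((1 + ‖y‖) ^ (-4 : ℝ)) := fun y => slice_cubic y
  refine (lintegral_mono h1).trans_lt ?_
  rw [lintegral_const_mul' _ _ (by
    exact ENNReal.mul_ne_top (by norm_num) ENNReal.coe_ne_top)]
  apply ENNReal.mul_lt_top
  · exact ENNReal.mul_lt_top (by norm_num) ENNReal.coe_lt_top
  · apply finite_integral_one_add_norm
    simp
    norm_num

lemma vol_Qs (k : ℕ) : volume (Qs (64 ^ k)) ≤ 256 ^ k * volume (Qs 1) := by
  have h1 : Qs (64 ^ k) ⊆ ((4 : ℝ) ^ k) • Qs 1 := by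
    rintro ⟨x, y⟩ hp
    have hp' : ‖x ^ 3 + y ^ 3‖ ≤ 64 ^ k := hp
    rw [Set.mem_smul_set]
    refine ⟨(((4 : ℝ) ^ k)⁻¹ • x, ((4 : ℝ) ^ k)⁻¹ • y), ?_, ?_⟩
    · show ‖(((4 : ℝ) ^ k)⁻¹ • x) ^ 3 + (((4 : ℝ) ^ k)⁻¹ • y) ^ 3‖ ≤ 1
      rw [smul_pow, smul_pow, ← smul_add, norm_smul, Real.norm_of_nonneg (by positivity),
        inv_pow, inv_mul_le_iff₀ (by positivity), mul_one, ← pow_mul, mul_comm k 3, pow_mul]
      norm_num
      exact hp'
    · rw [Prod.smul_mk, smul_smul, smul_smul, mul_inv_cancel₀ (by positivity), one_smul, one_smul]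
  refine (measure_mono h1).trans ?_
  have hinst : (volume : Measure (ℂ × ℂ)).IsAddHaarMeasure := by
    rw [Measure.volume_eq_prod]
    infer_instance
  rw [Measure.addHaar_smul]
  gcongr
  have hf : Module.finrank ℝ (ℂ × ℂ) = 4 := by
    rw [Module.finrank_prod, Complex.finrank_real_complex]
  rw [hf, abs_of_pos (by positivity), ← pow_mul, mul_comm k 4, pow_mul,
    ENNReal.ofReal_pow (by positivity)]
  gcongr
  norm_num

lemma measurableSet_Om : MeasurableSet Om := isOpen_Om.measurableSet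

/-- Tonelli -/
lemma vol_part {B : Set (ℂ × ℂ)} (hB : MeasurableSet B) {D : ℝ≥0∞}
    (h : ∀ p ∈ B, volume {z : ℂ | (z, p.1 ^ 3 + p.2 ^ 3) ∈ Ub} ≤ D) :
    volume {v : Fin 3 → ℂ | v ∈ Om ∧ (v 0, v 1) ∈ B} ≤ D * volume B := by
  set S : Set (ℂ × (ℂ × ℂ)) := {w | (w.1, w.2.1 ^ 3 + w.2.2 ^ 3) ∈ Ub ∧ w.2 ∈ B} with hS
  have hSm : MeasurableSet S := by
    apply MeasurableSet.inter
    · apply IsOpen.measurableSet
      exact isOpen_Ub.preimage (f := fun w : ℂ × (ℂ × ℂ) => (w.1, w.2.1 ^ 3 + w.2.2 ^ 3))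
        (by fun_prop)
    · exact measurable_snd hB
  have hmp : MeasurePreserving (fun v : Fin 3 → ℂ => ((v 2, (v 0, v 1)) : ℂ × (ℂ × ℂ)))
      volume volume := by
    have h1 := volume_preserving_piFinSuccAbove (fun _ : Fin 3 => ℂ) 2
    have h2 := volume_preserving_finTwoArrow ℂ
    have h3 : MeasurePreserving (Prod.map (id : ℂ → ℂ) (MeasurableEquiv.finTwoArrow (α := ℂ)))
        ((volume : Measure ℂ).prod (volume : Measure (Fin 2 → ℂ)))
        ((volume : Measure ℂ).prod (volume : Measure (ℂ × ℂ))) :=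
      (MeasurePreserving.id volume).prod h2
    have h4 := h3.comp h1
    have h5 : (fun v : Fin 3 → ℂ => ((v 2, (v 0, v 1)) : ℂ × (ℂ × ℂ))) =
        Prod.map id (MeasurableEquiv.finTwoArrow (α := ℂ)) ∘
          (MeasurableEquiv.piFinSuccAbove (fun _ : Fin 3 => ℂ) 2) := by
      funext v
      rfl
    rw [h5]
    exact h4
  have hpre : {v : Fin 3 → ℂ | v ∈ Om ∧ (v 0, v 1) ∈ B} =
      (fun v : Fin 3 → ℂ => ((v 2, (v 0, v 1)) : ℂ × (ℂ × ℂ))) ⁻¹' S := rfl
  rw [hpre, hmp.measure_preimage hSm.nullMeasurableSet, Measure.volume_eq_prod,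
    Measure.prod_apply_symm hSm]
  have h5 : ∀ p : ℂ × ℂ, volume ((fun z : ℂ => (z, p)) ⁻¹' S) ≤ B.indicator (fun _ => D) p := by
    intro p
    by_cases hp : p ∈ B
    · rw [Set.indicator_of_mem hp]
      refine (measure_mono ?_).trans (h p hp)
      intro z hz
      exact hz.1
    · rw [Set.indicator_of_notMem hp]
      have : (fun z : ℂ => (z, p)) ⁻¹' S = ∅ := by
        ext z
        simp only [Set.mem_preimage, Set.mem_empty_iff_false, iff_false]
        intro hz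
        exact hp hz.2
      rw [this, measure_empty]
  refine (lintegral_mono h5).trans ?_
  rw [lintegral_indicator_const hB]

/-- uniform bound for the slices over a shell -/
lemma slice_all : ∃ A : ℝ≥0∞, A ≠ ∞ ∧ (∀ t : ℂ, ‖t‖ ≤ 1 → volume {z : ℂ | (z, t) ∈ Ub} ≤ A) ∧
    ∀ (k : ℕ) (t : ℂ), 64 ^ k ≤ ‖t‖ → volume {z : ℂ | (z, t) ∈ Ub} ≤ A * (1 / 512) ^ k := by
  set A₁ : ℝ≥0∞ := 8 * (144 * NNReal.pi) with hA₁
  set A₂ : ℝ≥0∞ := ENNReal.ofReal 4096 ^ 2 * NNReal.pi * 512 with hA₂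
  have hA₁t : A₁ ≠ ∞ := by
    rw [hA₁]
    exact ENNReal.mul_ne_top (by norm_num) (ENNReal.mul_ne_top (by norm_num) ENNReal.coe_ne_top)
  have hA₂t : A₂ ≠ ∞ := by
    rw [hA₂]
    exact ENNReal.mul_ne_top (ENNReal.mul_ne_top (by simp) ENNReal.coe_ne_top) (by norm_num)
  refine ⟨A₁ + A₂, ENNReal.add_ne_top.mpr ⟨hA₁t, hA₂t⟩, ?_, ?_⟩
  · intro t ht
    refine (slice_small (R := 4096) (by norm_num) (by linarith)).trans ?_
    calc ENNReal.ofReal 4096 ^ 2 * NNReal.pi ≤ A₂ := by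
          rw [hA₂]
          conv_lhs => rw [← mul_one (ENNReal.ofReal 4096 ^ 2 * NNReal.pi)]
          gcongr
          norm_num
      _ ≤ A₁ + A₂ := le_add_self
  · intro k t hk
    rcases le_or_gt 4096 ‖t‖ with h | h
    · refine (slice_big h hk).trans ?_
      calc 8 * (ENNReal.ofReal (144 * (1 / 512) ^ k) * NNReal.pi) = A₁ * (1 / 512) ^ k := by
            rw [ENNReal.ofReal_mul (by norm_num), ENNReal.ofReal_pow (by norm_num),
              ENNReal.ofReal_div_of_pos (by norm_num)]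
            simp only [ENNReal.ofReal_one, ENNReal.ofReal_ofNat]
            rw [hA₁]
            ring
        _ ≤ (A₁ + A₂) * (1 / 512) ^ k := by
            gcongr
            exact le_self_add
    · have hk2 : k ≤ 1 := by
        by_contra hcon
        push Not at hcon
        have : (64 : ℝ) ^ 2 ≤ 64 ^ k := pow_le_pow_right₀ (by norm_num) hcon
        norm_num at this
        linarith
      refine (slice_small (R := 4096) (by norm_num) h.le).trans ?_
      have h512 : (1 / 512 : ℝ≥0∞) ^ 1 ≤ (1 / 512) ^ k := by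
        apply pow_le_pow_right_of_le_one' _ hk2
        rw [one_div, ENNReal.inv_le_one]
        norm_num
      calc ENNReal.ofReal 4096 ^ 2 * NNReal.pi = A₂ * (1 / 512) ^ 1 := by
            rw [hA₂, pow_one, mul_assoc, one_div, ENNReal.mul_inv_cancel (by norm_num)
              (by norm_num), mul_one]
        _ ≤ A₂ * (1 / 512) ^ k := by gcongr
        _ ≤ (A₁ + A₂) * (1 / 512) ^ k := by
            gcongr
            exact le_add_self

theorem vol_Om : volume Om < ∞ := by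
  obtain ⟨A, hA, hA1, hA2⟩ := slice_all
  set B : ℕ → Set (ℂ × ℂ) := fun k => {p | 64 ^ k ≤ ‖p.1 ^ 3 + p.2 ^ 3‖ ∧
    ‖p.1 ^ 3 + p.2 ^ 3‖ ≤ 64 ^ (k + 1)} with hB
  have hBm : ∀ k, MeasurableSet (B k) := by
    intro k
    apply MeasurableSet.inter
    · exact (isClosed_le (f := fun _ : ℂ × ℂ => (64 : ℝ) ^ k)
        (g := fun p : ℂ × ℂ => ‖p.1 ^ 3 + p.2 ^ 3‖) continuous_const (by fun_prop)).measurableSet
    · exact (isClosed_Qs (64 ^ (k + 1))).measurableSet
  have hcov : Om ⊆ {v : Fin 3 → ℂ | v ∈ Om ∧ (v 0, v 1) ∈ Qs 1} ∪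
      ⋃ k, {v : Fin 3 → ℂ | v ∈ Om ∧ (v 0, v 1) ∈ B k} := by
    intro v hv
    rcases le_or_gt ‖v 0 ^ 3 + v 1 ^ 3‖ 1 with h | h
    · exact Or.inl ⟨hv, h⟩
    · right
      obtain ⟨k, hk1, hk2⟩ := exists_nat_pow_near h.le (by norm_num : (1 : ℝ) < 64)
      exact Set.mem_iUnion.mpr ⟨k, hv, hk1, hk2.le⟩
  refine (measure_mono hcov).trans_lt ((measure_union_le _ _).trans_lt ?_)
  apply ENNReal.add_lt_top.mpr
  constructor
  · refine (vol_part (isClosed_Qs 1).measurableSet (D := A) fun p hp => hA1 _ hp).trans_lt ?_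
    exact ENNReal.mul_lt_top hA.lt_top vol_Q1
  · refine (measure_iUnion_le _).trans_lt ?_
    have h1 : ∀ k, volume {v : Fin 3 → ℂ | v ∈ Om ∧ (v 0, v 1) ∈ B k} ≤
        (256 * A * volume (Qs 1)) * (2⁻¹) ^ k := by
      intro k
      refine (vol_part (hBm k) (D := A * (1 / 512) ^ k) fun p hp => hA2 k _ hp.1).trans ?_
      have h2 : volume (B k) ≤ 256 ^ (k + 1) * volume (Qs 1) :=
        (measure_mono fun p hp => hp.2).trans (vol_Qs (k + 1))
      calc A * (1 / 512) ^ k * volume (B k) ≤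
          A * (1 / 512) ^ k * (256 ^ (k + 1) * volume (Qs 1)) := by gcongr
        _ = (256 * A * volume (Qs 1)) * ((1 / 512) ^ k * 256 ^ k) := by
          rw [pow_succ]
          ring
        _ = (256 * A * volume (Qs 1)) * (2⁻¹) ^ k := by
          congr 1
          rw [← mul_pow]
          congr 1
          have e1 : (512 : ℝ≥0∞) = 2 * 256 := by norm_num
          rw [one_div, e1, ENNReal.mul_inv (by norm_num) (by norm_num), mul_assoc,
            ENNReal.inv_mul_cancel (by norm_num) (by norm_num), mul_one]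
    refine (ENNReal.tsum_le_tsum h1).trans_lt ?_
    rw [ENNReal.tsum_mul_left, ENNReal.tsum_geometric]
    apply ENNReal.mul_lt_top
    · exact ENNReal.mul_lt_top (ENNReal.mul_lt_top (by norm_num) hA.lt_top) vol_Q1
    · rw [ENNReal.one_sub_inv_two, inv_inv]
      norm_num

end Pool.Agent.Helper853.Fb
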